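import Pool.Agent.H17.HF.Poly

set_option autoImplicit false
set_option linter.unusedSectionVars false

/-!
# Graphs satisfying the isoperimetric hypothesis
-/

namespace Pool.Agent.H17.HF

open scoped Classical
open Finset

variable {V : Type} [Fintype V]

theorem mem_bdry {H : SimpleGraph V} {X : Finset V} {v : V} :
    v ∈ bdry H X ↔ v ∉ X ∧ ∃ x ∈ X, H.Adj x v := by
  simp [bdry]

theorem disjoint_bdry (H : SimpleGraph V) (X : Finset V) : Disjoint X (bdry H X) := by
  rw [Finset.disjoint_left]
  intro x hx hx'
  exact (mem_bdry.1 hx').1 hx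

theorem card_add_bdry (H : SimpleGraph V) (X : Finset V) :
    X.card + (bdry H X).card = (X ∪ bdry H X).card :=
  (Finset.card_union_of_disjoint (disjoint_bdry H X)).symm

theorem card_add_bdry_le (H : SimpleGraph V) (X : Finset V) :
    X.card + (bdry H X).card ≤ Fintype.card V := by
  rw [card_add_bdry]
  exact Finset.card_le_univ _

theorem union_bdry_eq_univ {H : SimpleGraph V} {X : Finset V}
    (h : X.card + (bdry H X).card = Fintype.card V) : X ∪ bdry H X = univ := by
  rw [card_add_bdry] at h
  exact (Finset.card_eq_iff_eq_univ _).1 h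

/-- a set closed under adjacency (outside a deleted set) is everything in a connected graph -/
theorem closed_eq {H : SimpleGraph V} {S : Set V} (hconn : (H.induce S).Preconnected)
    {T : Set V} {x : V} (hx : x ∈ T) (hxS : x ∈ S)
    (hcl : ∀ u ∈ T, ∀ v ∈ S, H.Adj u v → v ∈ T) {y : V} (hy : y ∈ S) : y ∈ T := by
  obtain ⟨p⟩ := hconn ⟨x, hxS⟩ ⟨y, hy⟩
  have : ∀ (a b : S), (H.induce S).Walk a b → (a : V) ∈ T → (b : V) ∈ T := by
    intro a b p
    induction p with
    | nil => exact fun h => h
    | @cons a b c h p ih => exact fun ha => ih (hcl _ ha _ b.2 h)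
  exact this _ _ p hx

/-- `k`-connectivity: more than `k` vertices, and deleting fewer than `k` vertices leaves a connected
graph -/
def KConn (H : SimpleGraph V) (k : ℕ) : Prop :=
  k < Fintype.card V ∧ ∀ S : Finset V, S.card < k → (H.induce ((S : Set V)ᶜ)).Connected

theorem iso_of_kConn {H : SimpleGraph V} {k : ℕ} (hk : 1 ≤ k) (h : KConn H k) {X₀ : Finset V}
    (hX₀ : X₀.card = Fintype.card V - k) : Iso H (Fintype.card V - k) X₀ := by
  intro X hX hsmall
  have hlt := h.1
  have hk' : Fintype.card V - X₀.card = k := by omega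
  rw [hk', hX₀]
  obtain ⟨m, hm⟩ : ∃ m, Fintype.card V = k + m := ⟨Fintype.card V - k, by omega⟩
  have hm' : Fintype.card V - k = m := by omega
  rw [hm'] at hsmall ⊢
  by_cases hu : X ∪ bdry H X = univ
  · refine ⟨?_, fun _ => hu⟩
    have h1 : X.card + (bdry H X).card = Fintype.card V := by
      rw [card_add_bdry, hu, Finset.card_univ]
    have h2 : X.card ≤ m := by
      by_contra hcon
      have h3 : (Xᶜ).card < k := by
        rw [Finset.card_compl]; omega
      have h4 := h.2 Xᶜ h3
      rw [Finset.coe_compl, compl_compl] at h4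
      exact hcon (hsmall X (Finset.Subset.refl _) h4)
    have h3 : k ≤ (bdry H X).card := by omega
    calc k * X.card ≤ k * m := Nat.mul_le_mul_left _ h2
      _ = m * k := Nat.mul_comm _ _
      _ ≤ m * (bdry H X).card := Nat.mul_le_mul_left _ h3
  · obtain ⟨z, hz⟩ : ∃ z, z ∉ X ∪ bdry H X := by
      by_contra hcon
      push Not at hcon
      exact hu (Finset.eq_univ_iff_forall.2 hcon)
    have h2 : k ≤ (bdry H X).card := by
      by_contra hcon
      push Not at hcon
      have h4 := (h.2 _ hcon).preconnected
      obtain ⟨x, hx⟩ := hX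
      have hz1 : z ∈ (X : Set V) := by
        refine closed_eq h4 (T := (X : Set V)) (x := x) (Finset.mem_coe.2 hx) ?_ ?_ ?_
        · intro hx'
          exact (mem_bdry.1 (Finset.mem_coe.1 hx')).1 hx
        · intro u hu' v hv huv
          by_contra hvX
          exact hv (Finset.mem_coe.2 (mem_bdry.2 ⟨fun h => hvX (Finset.mem_coe.2 h), u,
            Finset.mem_coe.1 hu', huv⟩))
        · intro hz'
          exact hz (Finset.mem_union_right _ (Finset.mem_coe.1 hz'))
      exact hz (Finset.mem_union_left _ (Finset.mem_coe.1 hz1))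
    have h3 : X.card + (bdry H X).card < k + m := by
      rw [card_add_bdry, ← hm]
      exact Finset.card_lt_univ_of_notMem hz
    have h4 : k * X.card < m * (bdry H X).card := by
      obtain ⟨e, he⟩ := Nat.exists_eq_add_of_le h2
      rw [he] at h3 ⊢
      have h5 : X.card < m := by omega
      calc k * X.card < k * m := Nat.mul_lt_mul_of_pos_left h5 (by omega)
        _ ≤ m * (k + e) := by nlinarith
    exact ⟨h4.le, fun h => absurd h h4.ne⟩

/-- **Connectivity bound.** -/
theorem reduces_of_kConn {H : SimpleGraph V} {k : ℕ} (hk : 1 ≤ k) (h : KConn H k) {c : ℝ}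
    (hc : c < (k : ℝ) / Fintype.card V) : Reduces H c := by
  obtain ⟨X₀, -, hX₀⟩ := Finset.exists_subset_card_eq
    (s := (univ : Finset V)) (n := Fintype.card V - k) (by rw [Finset.card_univ]; omega)
  have hlt := h.1
  refine reduces_of_iso (t := Fintype.card V - k) (X₀ := X₀) ?_ ?_ (iso_of_kConn hk h hX₀) ?_
  · rw [← Finset.card_pos, hX₀]; omega
  · intro Y hY _
    rw [← hX₀]
    exact Finset.card_le_card hY
  · rw [hX₀, Nat.cast_sub hlt.le]
    have hV : (0 : ℝ) < Fintype.card V := by
      have : 0 < Fintype.card V := by omega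
      exact_mod_cast this
    have : 1 - ((Fintype.card V : ℝ) - k) / Fintype.card V = k / Fintype.card V := by
      field_simp
      ring
    rw [this]
    exact hc

/-! ### independent sets -/

theorem indep_of_smallComps {H : SimpleGraph V} {X : Finset V} (h : SmallComps H 1 X) :
    ∀ x ∈ X, ∀ y ∈ X, ¬ H.Adj x y := by
  intro x hx y hy hxy
  have h1 := h {x, y} (by
    intro z hz
    rcases Finset.mem_insert.1 hz with rfl | hz
    · exact hx
    · rw [Finset.mem_singleton.1 hz]; exact hy) (by
      rw [Finset.coe_insert, Finset.coe_singleton]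
      exact SimpleGraph.induce_pair_connected_of_adj hxy)
  rw [Finset.card_pair hxy.ne] at h1
  omega

theorem smallComps_of_indep {H : SimpleGraph V} {X : Finset V}
    (h : ∀ x ∈ X, ∀ y ∈ X, ¬ H.Adj x y) : SmallComps H 1 X := by
  intro Y hY hconn
  rw [Finset.card_le_one]
  intro a ha b hb
  by_contra hab
  have h1 := closed_eq hconn.preconnected (T := {a}) (x := a) rfl (Finset.mem_coe.2 ha) (by
    intro u hu v hv huv
    rw [Set.mem_singleton_iff] at hu
    subst hu
    exact absurd huv (h u (hY ha) v (hY (Finset.mem_coe.1 hv)))) (Finset.mem_coe.2 hb)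
  exact hab (Set.mem_singleton_iff.1 h1).symm

end Pool.Agent.H17.HF
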