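import Pool.Agent.H17.HF.Cor

set_option autoImplicit false
set_option linter.unusedSectionVars false

/-!
# Biregular bipartite graphs, nearly bipartite regular graphs, vertex-transitive graphs
-/

namespace Pool.Agent.H17.HF

open scoped Classical
open Finset

variable {V : Type} [Fintype V]

/-- the neighbours of a vertex -/
noncomputable def nb (H : SimpleGraph V) (x : V) : Finset V := univ.filter fun y => H.Adj x y

theorem mem_nb {H : SimpleGraph V} {x y : V} : y ∈ nb H x ↔ H.Adj x y := by simp [nb]

theorem card_nb (H : SimpleGraph V) (x : V) : (nb H x).card = (H.neighborSet x).ncard := by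
  rw [← Set.ncard_coe_finset]
  congr 1
  ext y
  simp [nb]

theorem count_nb {H : SimpleGraph V} {T N : Finset V} {a b : ℕ}
    (hT : ∀ x ∈ T, (nb H x).card = b) (hN : ∀ y ∈ N, (nb H y).card = a)
    (hTN : ∀ x ∈ T, ∀ y, H.Adj x y → y ∈ N) :
    b * T.card ≤ a * N.card ∧
      (b * T.card = a * N.card → ∀ y ∈ N, ∀ x, H.Adj x y → x ∈ T) := by
  have h1 := Finset.sum_card_bipartiteAbove_eq_sum_card_bipartiteBelow (s := T) (t := N) H.Adj
  have h2 : ∀ x ∈ T, (Finset.bipartiteAbove H.Adj N x).card = b := by
    intro x hx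
    rw [← hT x hx]
    congr 1
    ext y
    simp only [Finset.mem_bipartiteAbove, mem_nb]
    exact ⟨fun h => h.2, fun h => ⟨hTN x hx y h, h⟩⟩
  have h3 : ∀ y ∈ N, (Finset.bipartiteBelow H.Adj T y) ⊆ nb H y := by
    intro y _ x hx
    rw [Finset.mem_bipartiteBelow] at hx
    exact mem_nb.2 hx.2.symm
  have h4 : ∀ y ∈ N, (Finset.bipartiteBelow H.Adj T y).card ≤ a := by
    intro y hy
    rw [← hN y hy]
    exact Finset.card_le_card (h3 y hy)
  rw [Finset.sum_congr rfl h2, Finset.sum_const, smul_eq_mul, Nat.mul_comm] at h1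
  have h5 : ∑ y ∈ N, (Finset.bipartiteBelow H.Adj T y).card ≤ ∑ _y ∈ N, a := Finset.sum_le_sum h4
  have h6 : ∑ _y ∈ N, a = a * N.card := by
    rw [Finset.sum_const, smul_eq_mul, Nat.mul_comm]
  refine ⟨by rw [h1, ← h6]; exact h5, ?_⟩
  intro he y hy x hxy
  rw [h1, ← h6] at he
  have h7 := (Finset.sum_eq_sum_iff_of_le h4).1 he y hy
  have h8 : Finset.bipartiteBelow H.Adj T y = nb H y := by
    apply Finset.eq_of_subset_of_card_le (h3 y hy)
    rw [h7, hN y hy]
  have h9 : x ∈ Finset.bipartiteBelow H.Adj T y := by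
    rw [h8]; exact mem_nb.2 hxy.symm
  exact ((Finset.mem_bipartiteBelow H.Adj).1 h9).1

theorem closed_univ {H : SimpleGraph V} (hconn : H.Connected) {T : Finset V} {x : V} (hx : x ∈ T)
    (hcl : ∀ u ∈ T, ∀ v, H.Adj u v → v ∈ T) : T = univ := by
  have key : ∀ (a b : V), H.Walk a b → a ∈ T → b ∈ T := by
    intro a b p
    induction p with
    | nil => exact fun h => h
    | @cons a b c h p ih => exact fun ha => ih (hcl _ ha _ h)
  refine Finset.eq_univ_iff_forall.2 fun y => ?_
  obtain ⟨p⟩ := hconn.preconnected x y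
  exact key _ _ p hx

theorem deg_pos_of_connected {H : SimpleGraph V} (hconn : H.Connected)
    (h1 : 1 < Fintype.card V) (x : V) : 0 < (nb H x).card := by
  by_contra hcon
  have h0 : nb H x = ∅ := Finset.card_eq_zero.1 (by omega)
  have h2 := closed_univ hconn (T := {x}) (Finset.mem_singleton_self x) (by
    intro u hu v huv
    rw [Finset.mem_singleton] at hu
    subst hu
    have : v ∈ nb H u := mem_nb.2 huv
    rw [h0] at this
    simp at this)
  have h3 : ({x} : Finset V).card = Fintype.card V := by rw [h2, Finset.card_univ]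
  rw [Finset.card_singleton] at h3
  omega

/-- if the boundary of an independent set has all its neighbours in the set, we see everything -/
theorem union_bdry_of_closed {H : SimpleGraph V} (hconn : H.Connected) {X : Finset V}
    (hX : X.Nonempty) (h : ∀ y ∈ bdry H X, ∀ x, H.Adj x y → x ∈ X) : X ∪ bdry H X = univ := by
  obtain ⟨x, hx⟩ := hX
  refine closed_univ hconn (Finset.mem_union_left _ hx) ?_
  intro u hu v huv
  rcases Finset.mem_union.1 hu with hu | hu
  · by_cases hv : v ∈ X
    · exact Finset.mem_union_left _ hv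
    · exact Finset.mem_union_right _ (mem_bdry.2 ⟨hv, u, hu, huv⟩)
  · exact Finset.mem_union_left _ (h u hu v huv.symm)

/-- **Regular graphs with an independent set of almost half the vertices.** -/
theorem iso_of_regular_odd {H : SimpleGraph V} (hconn : H.Connected) {d k : ℕ}
    (hd : ∀ v, (nb H v).card = d) (hk1 : 1 ≤ k) (hk : Fintype.card V = 2 * k + 1) {X₀ : Finset V}
    (hX₀ : X₀.card = k) : Iso H 1 X₀ := by
  intro X hX hsmall
  have hind := indep_of_smallComps hsmall
  have hcount := count_nb (H := H) (T := X) (N := bdry H X) (a := d) (b := d)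
    (fun x _ => hd x) (fun y _ => hd y)
    (fun x hx y hxy => mem_bdry.2 ⟨fun hy => hind x hx y hy hxy, x, hx, hxy⟩)
  have hle := card_add_bdry_le H X
  rw [hk] at hle
  have hpos : 0 < X.card := Finset.card_pos.2 hX
  have hdpos : 0 < d := by
    obtain ⟨x, hx⟩ := hX
    rw [← hd x]
    exact deg_pos_of_connected hconn (by omega) x
  have key : X.card + 1 ≤ (bdry H X).card := by
    have h1 : X.card ≤ (bdry H X).card := Nat.le_of_mul_le_mul_left hcount.1 hdpos
    rcases Nat.lt_or_ge X.card (bdry H X).card with h2 | h2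
    · exact h2
    · exfalso
      have h3 : X.card = (bdry H X).card := le_antisymm h1 h2
      have h6 := union_bdry_of_closed hconn hX (hcount.2 (by rw [h3]))
      have h7 := card_add_bdry H X
      rw [h6, Finset.card_univ] at h7
      omega
  rw [hX₀, hk]
  have h1 : 2 * k + 1 - k = k + 1 := by omega
  rw [h1]
  have h2 : X.card ≤ k := by omega
  refine ⟨?_, ?_⟩
  · calc (k + 1) * X.card = k * X.card + X.card := by ring
      _ ≤ k * X.card + k := by omega
      _ = k * (X.card + 1) := by ring
      _ ≤ k * (bdry H X).card := Nat.mul_le_mul_left _ key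
  · intro he
    apply union_bdry_eq_univ
    rw [hk]
    obtain ⟨e, he'⟩ := Nat.exists_eq_add_of_le key
    rw [he'] at he hle ⊢
    have h3 : X.card = k + k * e := by nlinarith
    have h4 : k * e = 0 := by omega
    rcases Nat.mul_eq_zero.1 h4 with h5 | h5
    · omega
    · subst h5
      omega

end Pool.Agent.H17.HF
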