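import Pool.Agent.H17.HF.Cor2

set_option autoImplicit false
set_option linter.unusedSectionVars false

/-!
# Biregular bipartite graphs and vertex-transitive graphs
-/

namespace Pool.Agent.H17.HF

open scoped Classical
open Finset

variable {V : Type} [Fintype V]

/-- **Connected biregular bipartite graphs.** -/
theorem iso_of_biregular {H : SimpleGraph V} (hconn : H.Connected) {P : Finset V} {a b : ℕ}
    (hbip : ∀ u v, H.Adj u v → (u ∈ P ↔ v ∉ P)) (ha : ∀ v ∈ P, (nb H v).card = a)
    (hb : ∀ v ∉ P, (nb H v).card = b) (hP : 2 * P.card ≤ Fintype.card V) : Iso H 1 Pᶜ := by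
  intro X hX hsmall
  have hind := indep_of_smallComps hsmall
  have hq : (Pᶜ).card = Fintype.card V - P.card := Finset.card_compl P
  have hPle := Finset.card_le_univ P
  rw [hq]
  obtain ⟨q, hqq⟩ : ∃ q, Fintype.card V = P.card + q := ⟨Fintype.card V - P.card, by omega⟩
  have e1 : Fintype.card V - (Fintype.card V - P.card) = P.card := by omega
  have e2 : Fintype.card V - P.card = q := by omega
  rw [e1, e2]
  set p := P.card with hp
  -- degenerate case
  rcases Nat.lt_or_ge 1 (Fintype.card V) with hV | hV
  swap
  · have hX1 : 0 < X.card := Finset.card_pos.2 hX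
    have h1 := card_add_bdry_le H X
    have h2 : X ∪ bdry H X = univ := union_bdry_eq_univ (by omega)
    have h3 : p = 0 := by omega
    rw [h3]
    exact ⟨by simp, fun _ => h2⟩
  have hdeg : ∀ x, 0 < (nb H x).card := deg_pos_of_connected hconn hV
  have hcardC : (Pᶜ).card = q := by rw [hq]; omega
  -- both classes are nonempty
  have hp0 : 0 < p := by
    by_contra hcon
    obtain ⟨x, -⟩ := hX
    have hPe : P = ∅ := Finset.card_eq_zero.1 (by omega)
    obtain ⟨y, hy⟩ := Finset.card_pos.1 (hdeg x)
    have := hbip x y (mem_nb.1 hy)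
    rw [hPe] at this
    simp at this
  have hq0 : 0 < q := by omega
  have ha0 : 0 < a := by
    obtain ⟨x, hx⟩ := Finset.card_pos.1 hp0
    rw [← ha x hx]; exact hdeg x
  have hb0 : 0 < b := by
    obtain ⟨x, hx⟩ := Finset.card_pos.1 (show 0 < (Pᶜ).card by omega)
    rw [← hb x (Finset.mem_compl.1 hx)]; exact hdeg x
  have hab : a * p = b * q := by
    apply le_antisymm
    · have := (count_nb (H := H) (T := P) (N := Pᶜ) ha
        (fun y hy => hb y (Finset.mem_compl.1 hy))
        (fun x hx y hxy => Finset.mem_compl.2 ((hbip x y hxy).1 hx))).1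
      rw [hcardC] at this
      exact this
    · have := (count_nb (H := H) (T := Pᶜ) (N := P)
        (fun y hy => hb y (Finset.mem_compl.1 hy)) ha
        (fun x hx y hxy => by
          by_contra hy
          exact (Finset.mem_compl.1 hx) ((hbip x y hxy).2 hy))).1
      rw [hcardC] at this
      exact this
  -- the two parts
  set X1 := X.filter (fun x => x ∈ P) with hX1
  set X2 := X.filter (fun x => x ∉ P) with hX2
  set N1 := (bdry H X).filter (fun x => x ∉ P) with hN1
  set N2 := (bdry H X).filter (fun x => x ∈ P) with hN2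
  have hXc : X.card = X1.card + X2.card := by
    rw [hX1, hX2, Finset.card_filter_add_card_filter_not]
  have hNc : (bdry H X).card = N2.card + N1.card := by
    rw [hN1, hN2, Finset.card_filter_add_card_filter_not]
  have c1 := count_nb (H := H) (T := X1) (N := N1) (a := b) (b := a)
    (fun x hx => ha x (Finset.mem_filter.1 hx).2) (fun y hy => hb y (Finset.mem_filter.1 hy).2)
    (fun x hx y hxy => by
      obtain ⟨hx1, hx2⟩ := Finset.mem_filter.1 hx
      exact Finset.mem_filter.2 ⟨mem_bdry.2 ⟨fun hy => hind x hx1 y hy hxy, x, hx1, hxy⟩,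
        (hbip x y hxy).1 hx2⟩)
  have c2 := count_nb (H := H) (T := X2) (N := N2) (a := a) (b := b)
    (fun x hx => hb x (Finset.mem_filter.1 hx).2) (fun y hy => ha y (Finset.mem_filter.1 hy).2)
    (fun x hx y hxy => by
      obtain ⟨hx1, hx2⟩ := Finset.mem_filter.1 hx
      refine Finset.mem_filter.2 ⟨mem_bdry.2 ⟨fun hy => hind x hx1 y hy hxy, x, hx1, hxy⟩, ?_⟩
      by_contra hy
      exact hx2 ((hbip x y hxy).2 hy))
  have hpq : p ≤ q := by omega
  -- inequalities
  have i2 : p * X2.card ≤ q * N2.card := by
    have h1 : b * (p * X2.card) ≤ b * (q * N2.card) := by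
      calc b * (p * X2.card) = p * (b * X2.card) := by ring
        _ ≤ p * (a * N2.card) := Nat.mul_le_mul_left _ c2.1
        _ = (a * p) * N2.card := by ring
        _ = b * (q * N2.card) := by rw [hab]; ring
    exact Nat.le_of_mul_le_mul_left h1 hb0
  have i1 : q * X1.card ≤ p * N1.card := by
    have h1 : a * (q * X1.card) ≤ a * (p * N1.card) := by
      calc a * (q * X1.card) = q * (a * X1.card) := by ring
        _ ≤ q * (b * N1.card) := Nat.mul_le_mul_left _ c1.1
        _ = (b * q) * N1.card := by ring
        _ = a * (p * N1.card) := by rw [← hab]; ring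
    exact Nat.le_of_mul_le_mul_left h1 ha0
  have i3 : p * X1.card ≤ q * X1.card := Nat.mul_le_mul_right _ hpq
  have i4 : p * N1.card ≤ q * N1.card := Nat.mul_le_mul_right _ hpq
  have e3 : p * X.card = p * X1.card + p * X2.card := by rw [hXc]; ring
  have e4 : q * (bdry H X).card = q * N1.card + q * N2.card := by rw [hNc]; ring
  rw [e3, e4]
  refine ⟨by omega, fun he => ?_⟩
  have j2 : p * X2.card = q * N2.card := by omega
  have j1 : q * X1.card = p * N1.card := by omega
  have k2 : b * X2.card = a * N2.card := by
    have h1 : p * (b * X2.card) = p * (a * N2.card) := by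
      calc p * (b * X2.card) = b * (p * X2.card) := by ring
        _ = b * (q * N2.card) := by rw [j2]
        _ = (b * q) * N2.card := by ring
        _ = p * (a * N2.card) := by rw [← hab]; ring
    exact Nat.eq_of_mul_eq_mul_left hp0 h1
  have k1 : a * X1.card = b * N1.card := by
    have h1 : q * (a * X1.card) = q * (b * N1.card) := by
      calc q * (a * X1.card) = a * (q * X1.card) := by ring
        _ = a * (p * N1.card) := by rw [j1]
        _ = (a * p) * N1.card := by ring
        _ = q * (b * N1.card) := by rw [hab]; ring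
    exact Nat.eq_of_mul_eq_mul_left hq0 h1
  refine union_bdry_of_closed hconn hX ?_
  intro y hy x hxy
  by_cases hyP : y ∈ P
  · exact (Finset.mem_filter.1 (c2.2 k2 y (Finset.mem_filter.2 ⟨hy, hyP⟩) x hxy)).1
  · exact (Finset.mem_filter.1 (c1.2 k1 y (Finset.mem_filter.2 ⟨hy, hyP⟩) x hxy)).1

end Pool.Agent.H17.HF
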