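import Pool.Agent.H17.HF.Cor3

set_option autoImplicit false
set_option linter.unusedSectionVars false

/-!
# Vertex-transitive graphs
-/

namespace Pool.Agent.H17.HF

open scoped Classical
open Finset

variable {V : Type} [Fintype V]

/-- in a vertex-transitive graph, some image of `X₀` meets `Y` in at least the expected number of
vertices -/
theorem exists_image {H : SimpleGraph V} (htr : ∀ u v, ∃ γ : H ≃g H, γ u = v) (X₀ Y : Finset V) :
    ∃ γ : H ≃g H, X₀.card * Y.card ≤
      Fintype.card V * (X₀.filter (fun x => γ x ∈ Y)).card := by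
  have : Finite (H ≃g H) := DFunLike.finite _
  obtain ⟨inst⟩ := nonempty_fintype (H ≃g H)
  have hcnt : ∀ x y x' y' : V, (univ.filter (fun γ : H ≃g H => γ x = y)).card =
      (univ.filter (fun γ : H ≃g H => γ x' = y')).card := by
    intro x y x' y'
    obtain ⟨σ, hσ⟩ := htr x' x
    obtain ⟨τ, hτ⟩ := htr y y'
    refine Finset.card_bij' (fun γ _ => (σ.trans γ).trans τ)
      (fun γ _ => (σ.symm.trans γ).trans τ.symm) ?_ ?_ ?_ ?_
    · intro γ hγ
      simp only [Finset.mem_filter, Finset.mem_univ, true_and] at hγ ⊢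
      simp [RelIso.trans_apply, hσ, hγ, hτ]
    · intro γ hγ
      simp only [Finset.mem_filter, Finset.mem_univ, true_and] at hγ ⊢
      have h1 : σ.symm x = x' := by rw [← hσ]; simp
      have h2 : τ.symm y' = y := by rw [← hτ]; simp
      simp [RelIso.trans_apply, h1, hγ, h2]
    · intro γ _
      ext v
      simp [RelIso.trans_apply]
    · intro γ _
      ext v
      simp [RelIso.trans_apply]
  rcases isEmpty_or_nonempty V with hV | ⟨⟨v₀⟩⟩
  · refine ⟨RelIso.refl _, ?_⟩
    have : X₀ = ∅ := Finset.eq_empty_of_isEmpty X₀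
    simp [this]
  set K := (univ.filter (fun γ : H ≃g H => γ v₀ = v₀)).card with hK
  have htot : Fintype.card V * K = Fintype.card (H ≃g H) := by
    have h1 : ∑ y : V, (univ.filter (fun γ : H ≃g H => γ v₀ = y)).card =
        Fintype.card (H ≃g H) := by
      have := Finset.card_eq_sum_card_fiberwise (s := (univ : Finset (H ≃g H)))
        (t := (univ : Finset V)) (f := fun γ => γ v₀) (fun _ _ => Finset.mem_coe.2 (Finset.mem_univ _))
      rw [Finset.card_univ] at this
      exact this.symm
    rw [← h1, Finset.sum_congr rfl (fun y _ => hcnt v₀ y v₀ v₀), Finset.sum_const,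
      Finset.card_univ, smul_eq_mul]
  have hS : ∑ γ : H ≃g H, (X₀.filter (fun x => γ x ∈ Y)).card = X₀.card * Y.card * K := by
    have h1 : ∀ γ : H ≃g H, (X₀.filter (fun x => γ x ∈ Y)).card =
        ∑ x ∈ X₀, ∑ y ∈ Y, if γ x = y then 1 else 0 := by
      intro γ
      rw [Finset.card_filter]
      refine Finset.sum_congr rfl fun x _ => ?_
      rw [Finset.sum_ite_eq]
    rw [Finset.sum_congr rfl (fun γ _ => h1 γ), Finset.sum_comm]
    have h2 : ∀ x ∈ X₀, ∑ γ : H ≃g H, ∑ y ∈ Y, (if γ x = y then 1 else 0) = Y.card * K := by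
      intro x _
      rw [Finset.sum_comm]
      have h3 : ∀ y ∈ Y, ∑ γ : H ≃g H, (if γ x = y then 1 else 0) = K := by
        intro y _
        rw [← Finset.card_filter]
        exact hcnt x y v₀ v₀
      rw [Finset.sum_congr rfl h3, Finset.sum_const, smul_eq_mul]
    rw [Finset.sum_congr rfl h2, Finset.sum_const, smul_eq_mul]
    ring
  obtain ⟨γ, -, hγ⟩ := Finset.exists_le_of_sum_le (s := (univ : Finset (H ≃g H)))
    (f := fun _ => X₀.card * Y.card)
    (g := fun γ => Fintype.card V * (X₀.filter (fun x => γ x ∈ Y)).card)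
    ⟨RelIso.refl _, Finset.mem_univ _⟩ (by
      rw [Finset.sum_const, Finset.card_univ, smul_eq_mul, ← Finset.mul_sum, hS, ← htot]
      apply le_of_eq
      ring)
  exact ⟨γ, hγ⟩

/-- **Vertex-transitive graphs whose independence number is coprime to the number of vertices.** -/
theorem iso_of_transitive {H : SimpleGraph V} (htr : ∀ u v, ∃ γ : H ≃g H, γ u = v)
    {X₀ : Finset V} (hind₀ : ∀ x ∈ X₀, ∀ y ∈ X₀, ¬ H.Adj x y)
    (hmax : ∀ X : Finset V, (∀ x ∈ X, ∀ y ∈ X, ¬ H.Adj x y) → X.card ≤ X₀.card)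
    (hcop : Nat.Coprime (Fintype.card V) X₀.card) : Iso H 1 X₀ := by
  intro X hX hsmall
  have hind := indep_of_smallComps hsmall
  set Y := (X ∪ bdry H X)ᶜ with hY
  obtain ⟨γ, hγ⟩ := exists_image htr X₀ Y
  set Z := (X₀.filter (fun x => γ x ∈ Y)).image γ with hZ
  have hZc : Z.card = (X₀.filter (fun x => γ x ∈ Y)).card :=
    Finset.card_image_of_injective _ γ.injective
  have hZY : Z ⊆ Y := by
    intro z hz
    obtain ⟨x, hx, rfl⟩ := Finset.mem_image.1 hz
    exact (Finset.mem_filter.1 hx).2
  have hZind : ∀ x ∈ Z, ∀ y ∈ Z, ¬ H.Adj x y := by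
    intro x hx y hy hxy
    obtain ⟨x', hx', rfl⟩ := Finset.mem_image.1 hx
    obtain ⟨y', hy', rfl⟩ := Finset.mem_image.1 hy
    exact hind₀ x' (Finset.mem_filter.1 hx').1 y' (Finset.mem_filter.1 hy').1
      (γ.map_adj_iff.1 hxy)
  have hXZ : ∀ x ∈ X, ∀ z ∈ Z, ¬ H.Adj x z := by
    intro x hx z hz hxz
    have h1 := Finset.mem_compl.1 (hZY hz)
    rw [Finset.mem_union] at h1
    push Not at h1
    exact h1.2 (mem_bdry.2 ⟨h1.1, x, hx, hxz⟩)
  have hdisj : Disjoint X Z := by
    rw [Finset.disjoint_left]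
    intro x hx hx'
    exact (Finset.mem_compl.1 (hZY hx')) (Finset.mem_union_left _ hx)
  have hunion : (X ∪ Z).card ≤ X₀.card := by
    apply hmax
    intro x hx y hy hxy
    rcases Finset.mem_union.1 hx with hx | hx <;> rcases Finset.mem_union.1 hy with hy | hy
    · exact hind x hx y hy hxy
    · exact hXZ x hx y hy hxy
    · exact hXZ y hy x hx hxy.symm
    · exact hZind x hx y hy hxy
  rw [Finset.card_union_of_disjoint hdisj, hZc] at hunion
  have hYc : Y.card + (X.card + (bdry H X).card) = Fintype.card V := by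
    rw [card_add_bdry, hY, Finset.card_compl]
    have := Finset.card_le_univ (X ∪ bdry H X)
    omega
  have hs := Finset.card_le_univ X₀
  obtain ⟨m, hm⟩ := Nat.exists_eq_add_of_le hs
  have hm' : Fintype.card V - X₀.card = m := by omega
  have key : Fintype.card V * X.card ≤ X₀.card * (X.card + (bdry H X).card) := by
    have h1 : Fintype.card V * (X.card + (X₀.filter (fun x => γ x ∈ Y)).card) ≤
        Fintype.card V * X₀.card := Nat.mul_le_mul_left _ hunion
    have h2 : Fintype.card V * X₀.card = X₀.card * Y.card +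
        X₀.card * (X.card + (bdry H X).card) := by
      rw [← Nat.mul_add, hYc, Nat.mul_comm]
    rw [Nat.mul_add] at h1
    omega
  rw [hm']
  have e1 : Fintype.card V * X.card = X₀.card * X.card + m * X.card := by rw [hm]; ring
  have e2 : X₀.card * (X.card + (bdry H X).card) = X₀.card * X.card + X₀.card * (bdry H X).card := by
    ring
  refine ⟨by omega, fun he => ?_⟩
  have h3 : Fintype.card V * X.card = X₀.card * (X.card + (bdry H X).card) := by omega
  have h4 : Fintype.card V ∣ X₀.card * (X.card + (bdry H X).card) := ⟨X.card, h3.symm⟩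
  have h5 : Fintype.card V ∣ X.card + (bdry H X).card := hcop.dvd_of_dvd_mul_left h4
  have hpos : 0 < X.card := Finset.card_pos.2 hX
  have h6 := Nat.le_of_dvd (by omega) h5
  exact union_bdry_eq_univ (le_antisymm (card_add_bdry_le H X) h6)

end Pool.Agent.H17.HF
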