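import Pool.Agent.H17.HF.Cor3

set_option autoImplicit false
set_option linter.unusedSectionVars false

/-!
# Bipartite graphs with the strict normalised matching property
-/

namespace Pool.Agent.H17.HF

open scoped Classical
open Finset

variable {V : Type} [Fintype V]

theorem iso_of_matching {H : SimpleGraph V} (hconn : H.Connected) {P : Finset V}
    (hbip : ∀ u v, H.Adj u v → (u ∈ P ↔ v ∉ P)) (hP : P.card ≤ (Pᶜ).card)
    (hexp : ∀ X : Finset V, X.Nonempty → X ⊂ Pᶜ →
      P.card * X.card < (Pᶜ).card * (bdry H X).card) : Iso H 1 Pᶜ := by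
  intro X hX hsmall
  have hind := indep_of_smallComps hsmall
  have hcc : P.card + (Pᶜ).card = Fintype.card V := Finset.card_add_card_compl P
  have e1 : Fintype.card V - (Pᶜ).card = P.card := by omega
  rw [e1]
  -- degenerate case
  rcases Nat.lt_or_ge 1 (Fintype.card V) with hV | hV
  swap
  · have hX1 : 0 < X.card := Finset.card_pos.2 hX
    have h1 := card_add_bdry_le H X
    have h2 : X ∪ bdry H X = univ := union_bdry_eq_univ (by omega)
    have h3 : P.card = 0 := by omega
    rw [h3]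
    exact ⟨by simp, fun _ => h2⟩
  have hdeg : ∀ x, ∃ y, H.Adj x y := by
    intro x
    obtain ⟨y, hy⟩ := Finset.card_pos.1 (deg_pos_of_connected hconn hV x)
    exact ⟨y, mem_nb.1 hy⟩
  set X1 := X.filter (fun x => x ∈ P) with hX1
  set X2 := X.filter (fun x => x ∉ P) with hX2
  have hXc : X.card = X1.card + X2.card := by
    rw [hX1, hX2, Finset.card_filter_add_card_filter_not]
  have hX1P : X1 ⊆ P := fun x hx => (Finset.mem_filter.1 hx).2
  have hX2Q : X2 ⊆ Pᶜ := fun x hx => Finset.mem_compl.2 (Finset.mem_filter.1 hx).2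
  have hN1 : (bdry H X).filter (fun x => x ∉ P) = bdry H X1 := by
    ext v
    simp only [Finset.mem_filter, mem_bdry]
    constructor
    · rintro ⟨⟨hv, x, hx, hxv⟩, hvP⟩
      have hxP : x ∈ P := (hbip x v hxv).2 hvP
      exact ⟨fun h => hvP (hX1P h), x, Finset.mem_filter.2 ⟨hx, hxP⟩, hxv⟩
    · rintro ⟨_, x, hx, hxv⟩
      obtain ⟨hx1, hx2⟩ := Finset.mem_filter.1 hx
      exact ⟨⟨fun hv => hind x hx1 v hv hxv, x, hx1, hxv⟩, (hbip x v hxv).1 hx2⟩
  have hN2 : (bdry H X).filter (fun x => x ∈ P) = bdry H X2 := by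
    ext v
    simp only [Finset.mem_filter, mem_bdry]
    constructor
    · rintro ⟨⟨hv, x, hx, hxv⟩, hvP⟩
      have hxP : x ∉ P := (hbip v x hxv.symm).1 hvP
      exact ⟨fun h => (Finset.mem_compl.1 (hX2Q h)) hvP, x, Finset.mem_filter.2 ⟨hx, hxP⟩, hxv⟩
    · rintro ⟨_, x, hx, hxv⟩
      obtain ⟨hx1, hx2⟩ := Finset.mem_filter.1 hx
      refine ⟨⟨fun hv => hind x hx1 v hv hxv, x, hx1, hxv⟩, ?_⟩
      by_contra hvP
      exact hx2 ((hbip x v hxv).2 hvP)
  have hNc : (bdry H X).card = (bdry H X2).card + (bdry H X1).card := by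
    rw [← hN1, ← hN2, Finset.card_filter_add_card_filter_not]
  have hQpos : 0 < (Pᶜ).card := by omega
  have hPpos : 0 < P.card := by
    obtain ⟨x, -⟩ := hX
    obtain ⟨y, hxy⟩ := hdeg x
    rw [Finset.card_pos]
    by_cases hx : x ∈ P
    · exact ⟨x, hx⟩
    · refine ⟨y, ?_⟩
      by_contra hy
      exact hx ((hbip x y hxy).2 hy)
  -- the boundary of a subset of the larger class lies in `P`, and conversely
  have hbQ : ∀ Z ⊆ Pᶜ, bdry H Z ⊆ P := by
    intro Z hZ v hv
    obtain ⟨_, x, hx, hxv⟩ := mem_bdry.1 hv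
    by_contra hvP
    exact (Finset.mem_compl.1 (hZ hx)) ((hbip x v hxv).2 hvP)
  have hbP : ∀ Z ⊆ P, bdry H Z ⊆ Pᶜ := by
    intro Z hZ v hv
    obtain ⟨_, x, hx, hxv⟩ := mem_bdry.1 hv
    exact Finset.mem_compl.2 ((hbip x v hxv).1 (hZ hx))
  -- first claim
  have c2 : P.card * X2.card ≤ (Pᶜ).card * (bdry H X2).card ∧
      (P.card * X2.card = (Pᶜ).card * (bdry H X2).card → X2 = ∅ ∨ (X2 = Pᶜ ∧ bdry H X2 = P)) := by
    rcases X2.eq_empty_or_nonempty with he | he
    · rw [he]
      exact ⟨by simp, fun _ => Or.inl rfl⟩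
    · by_cases hfull : X2 = Pᶜ
      · have hb : bdry H X2 = P := by
          apply Finset.Subset.antisymm (hbQ X2 hX2Q)
          intro v hv
          obtain ⟨y, hvy⟩ := hdeg v
          refine mem_bdry.2 ⟨fun h => (Finset.mem_compl.1 (hX2Q h)) hv, y, ?_, hvy.symm⟩
          rw [hfull]
          exact Finset.mem_compl.2 ((hbip v y hvy).1 hv)
        refine ⟨?_, fun _ => Or.inr ⟨hfull, hb⟩⟩
        rw [hb, hfull, Nat.mul_comm]
      · have := hexp X2 he (Finset.ssubset_iff_subset_ne.2 ⟨hX2Q, hfull⟩)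
        exact ⟨this.le, fun h => absurd h this.ne⟩
  -- second claim
  have c1 : (Pᶜ).card * X1.card ≤ P.card * (bdry H X1).card ∧
      ((Pᶜ).card * X1.card = P.card * (bdry H X1).card → X1 = ∅ ∨ bdry H X1 = Pᶜ) := by
    rcases X1.eq_empty_or_nonempty with he | he
    · rw [he]
      exact ⟨by simp, fun _ => Or.inl rfl⟩
    · set Z := Pᶜ \ bdry H X1 with hZ
      rcases Z.eq_empty_or_nonempty with hZe | hZe
      · have hb : bdry H X1 = Pᶜ :=
          Finset.Subset.antisymm (hbP X1 hX1P) (Finset.sdiff_eq_empty_iff_subset.1 hZe)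
        refine ⟨?_, fun _ => Or.inr hb⟩
        rw [hb]
        calc (Pᶜ).card * X1.card ≤ (Pᶜ).card * P.card :=
              Nat.mul_le_mul_left _ (Finset.card_le_card hX1P)
          _ = P.card * (Pᶜ).card := Nat.mul_comm _ _
      · have hZQ : Z ⊂ Pᶜ := by
          refine Finset.ssubset_iff_subset_ne.2 ⟨Finset.sdiff_subset, ?_⟩
          intro h
          obtain ⟨x, hx⟩ := he
          obtain ⟨y, hxy⟩ := hdeg x
          have hy : y ∉ P := (hbip x y hxy).1 (hX1P hx)
          have hyb : y ∈ bdry H X1 := mem_bdry.2 ⟨fun h => hy (hX1P h), x, hx, hxy⟩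
          have : y ∈ Z := by rw [h]; exact Finset.mem_compl.2 hy
          exact (Finset.mem_sdiff.1 this).2 hyb
        have h1 := hexp Z hZe hZQ
        have h2 : bdry H Z ⊆ P \ X1 := by
          intro v hv
          refine Finset.mem_sdiff.2 ⟨hbQ Z hZQ.1 hv, fun hvX => ?_⟩
          obtain ⟨_, z, hz, hzv⟩ := mem_bdry.1 hv
          have hz' := Finset.mem_sdiff.1 hz
          exact hz'.2 (mem_bdry.2 ⟨fun h => (Finset.mem_compl.1 hz'.1) (hX1P h), v, hvX, hzv.symm⟩)
        have h3 : (bdry H Z).card + X1.card ≤ P.card := by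
          have h4 := Finset.card_le_card h2
          rw [Finset.card_sdiff_of_subset hX1P] at h4
          have h5 := Finset.card_le_card hX1P
          omega
        have h4 : Z.card + (bdry H X1).card = (Pᶜ).card := by
          rw [hZ, Finset.card_sdiff_of_subset (hbP X1 hX1P)]
          have h5 := Finset.card_le_card (hbP X1 hX1P)
          omega
        have h5 : (Pᶜ).card * X1.card < P.card * (bdry H X1).card := by
          have h6 : (Pᶜ).card * ((bdry H Z).card + X1.card) ≤ (Pᶜ).card * P.card :=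
            Nat.mul_le_mul_left _ h3
          have h7 : P.card * (Z.card + (bdry H X1).card) = P.card * (Pᶜ).card := by rw [h4]
          nlinarith
        exact ⟨h5.le, fun h => absurd h h5.ne⟩
  have i3 : P.card * X1.card ≤ (Pᶜ).card * X1.card := Nat.mul_le_mul_right _ hP
  have i4 : P.card * (bdry H X1).card ≤ (Pᶜ).card * (bdry H X1).card := Nat.mul_le_mul_right _ hP
  have e3 : P.card * X.card = P.card * X1.card + P.card * X2.card := by rw [hXc]; ring
  have e4 : (Pᶜ).card * (bdry H X).card =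
      (Pᶜ).card * (bdry H X1).card + (Pᶜ).card * (bdry H X2).card := by rw [hNc]; ring
  have c1' := c1.1
  have c2' := c2.1
  rw [e3, e4]
  refine ⟨by omega, fun he => ?_⟩
  have j2 : P.card * X2.card = (Pᶜ).card * (bdry H X2).card := by omega
  have j1 : (Pᶜ).card * X1.card = P.card * (bdry H X1).card := by omega
  rcases c1.2 j1 with h1 | h1
  · -- `X ⊆ Pᶜ`
    rcases c2.2 j2 with h2 | ⟨h2, h3⟩
    · exfalso
      rw [h1, h2] at hXc
      simp only [Finset.card_empty, add_zero] at hXc
      exact hX.ne_empty (Finset.card_eq_zero.1 hXc)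
    · refine Finset.eq_univ_iff_forall.2 fun v => ?_
      by_cases hv : v ∈ P
      · apply Finset.mem_union_right
        have : v ∈ (bdry H X).filter (fun x => x ∈ P) := by rw [hN2, h3]; exact hv
        exact (Finset.mem_filter.1 this).1
      · apply Finset.mem_union_left
        have : v ∈ X2 := by rw [h2]; exact Finset.mem_compl.2 hv
        exact (Finset.mem_filter.1 this).1
  · -- the boundary contains `Pᶜ`
    have h2 : X1.card = P.card := by
      rw [h1] at j1
      have h3 : (Pᶜ).card * X1.card = (Pᶜ).card * P.card := by rw [j1, Nat.mul_comm]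
      exact Nat.eq_of_mul_eq_mul_left hQpos h3
    have h3 : X1 = P := Finset.eq_of_subset_of_card_le hX1P h2.ge
    refine Finset.eq_univ_iff_forall.2 fun v => ?_
    by_cases hv : v ∈ P
    · apply Finset.mem_union_left
      rw [← h3] at hv
      exact (Finset.mem_filter.1 hv).1
    · apply Finset.mem_union_right
      have : v ∈ (bdry H X).filter (fun x => x ∉ P) := by
        rw [hN1, h1]; exact Finset.mem_compl.2 hv
      exact (Finset.mem_filter.1 this).1

/-- connected biregular bipartite graphs have the strict normalised matching property -/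
theorem exp_of_biregular {H : SimpleGraph V} (hconn : H.Connected) {P : Finset V} {a b : ℕ}
    (hbip : ∀ u v, H.Adj u v → (u ∈ P ↔ v ∉ P)) (ha : ∀ v ∈ P, (H.neighborSet v).ncard = a)
    (hb : ∀ v ∉ P, (H.neighborSet v).ncard = b) :
    ∀ X : Finset V, X.Nonempty → X ⊂ Pᶜ → P.card * X.card < (Pᶜ).card * (bdry H X).card := by
  intro X hX hXQ
  have ha' : ∀ v ∈ P, (nb H v).card = a := fun v hv => by rw [card_nb]; exact ha v hv
  have hb' : ∀ v ∉ P, (nb H v).card = b := fun v hv => by rw [card_nb]; exact hb v hv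
  have hXP : ∀ x ∈ X, x ∉ P := fun x hx => Finset.mem_compl.1 (hXQ.1 hx)
  have hbd : ∀ v ∈ bdry H X, v ∈ P := by
    intro v hv
    obtain ⟨_, x, hx, hxv⟩ := mem_bdry.1 hv
    by_contra hvP
    exact hXP x hx ((hbip x v hxv).2 hvP)
  have hcard : 1 < Fintype.card V := by
    obtain ⟨x, hx⟩ := hX
    obtain ⟨y, hy, hyX⟩ := Finset.exists_of_ssubset hXQ
    exact Fintype.one_lt_card_iff.2 ⟨x, y, fun h => hyX (h ▸ hx)⟩
  have hdeg := deg_pos_of_connected hconn hcard
  obtain ⟨x₀, hx₀⟩ := hX
  have hb0 : 0 < b := by rw [← hb' x₀ (hXP x₀ hx₀)]; exact hdeg x₀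
  obtain ⟨p₀, hp₀⟩ := Finset.card_pos.1 (hdeg x₀)
  have hp₀P : p₀ ∈ P := by
    by_contra h
    exact hXP x₀ hx₀ ((hbip x₀ p₀ (mem_nb.1 hp₀)).2 h)
  have ha0 : 0 < a := by rw [← ha' p₀ hp₀P]; exact hdeg p₀
  have hc := count_nb (H := H) (T := X) (N := bdry H X) (a := a) (b := b)
    (fun x hx => hb' x (hXP x hx)) (fun y hy => ha' y (hbd y hy))
    (fun x hx y hxy => mem_bdry.2 ⟨fun hy => by
      have h1 := hXP y hy
      exact hXP x hx ((hbip x y hxy).2 h1), x, hx, hxy⟩)
  have hne : b * X.card ≠ a * (bdry H X).card := by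
    intro he
    have h1 := union_bdry_of_closed hconn ⟨x₀, hx₀⟩ (hc.2 he)
    obtain ⟨y, hy, hyX⟩ := Finset.exists_of_ssubset hXQ
    have h2 : y ∈ X ∪ bdry H X := by rw [h1]; exact Finset.mem_univ y
    rcases Finset.mem_union.1 h2 with h2 | h2
    · exact hyX h2
    · exact (Finset.mem_compl.1 hy) (hbd y h2)
  have hlt : b * X.card < a * (bdry H X).card := lt_of_le_of_ne hc.1 hne
  have hab : a * P.card ≤ b * (Pᶜ).card :=
    (count_nb (H := H) (T := P) (N := Pᶜ) ha'
      (fun y hy => hb' y (Finset.mem_compl.1 hy))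
      (fun x hx y hxy => Finset.mem_compl.2 ((hbip x y hxy).1 hx))).1
  -- multiply
  have h1 : a * b * (P.card * X.card) < a * b * ((Pᶜ).card * (bdry H X).card) := by
    have hPpos : 0 < P.card := Finset.card_pos.2 ⟨p₀, hp₀P⟩
    calc a * b * (P.card * X.card) = (a * P.card) * (b * X.card) := by ring
      _ < (a * P.card) * (a * (bdry H X).card) :=
          Nat.mul_lt_mul_of_pos_left hlt (Nat.mul_pos ha0 hPpos)
      _ ≤ (b * (Pᶜ).card) * (a * (bdry H X).card) := Nat.mul_le_mul_right _ hab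
      _ = a * b * ((Pᶜ).card * (bdry H X).card) := by ring
  exact Nat.lt_of_mul_lt_mul_left h1

end Pool.Agent.H17.HF
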