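import Mathlib
import Pool.Agent.H72.NP.Defs
import Pool.Agent.H80.Poly.More

set_option autoImplicit false
set_option linter.unusedSectionVars false

/-!
# H-factors in graphs of linear minimum degree: definitions
-/

namespace Pool.Agent.H17.HF

open Pool.Agent.H72.NP Pool.Agent.H80.Poly
open scoped Classical

/-- A finite graph: a number `n` of vertices and a simple graph on `Fin n`. -/
abbrev Gr : Type := Σ n : ℕ, SimpleGraph (Fin n)

/-- the adjacency matrix of a graph, as a list of rows -/
noncomputable def matrix (g : Gr) : List (List Bool) :=
  (List.finRange g.1).map fun u => (List.finRange g.1).map fun v => decide (g.2.Adj u v)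

/-- the encoding of a graph by a bit string: its adjacency matrix -/
noncomputable def encGr (g : Gr) : List Bool := enc (matrix g)

/-- `G` has an `H`-factor: there are vertex-disjoint subgraphs of `G`, each isomorphic to `H` (the
`i`-th one has the vertices `Φ (i, v)`), whose vertex sets together cover `V(G)`. -/
def HasFactor {V W : Type} (H : SimpleGraph V) (G : SimpleGraph W) : Prop :=
  ∃ (ι : Type) (Φ : ι × V ≃ W), ∀ i u v, H.Adj u v → G.Adj (Φ (i, u)) (Φ (i, v))

/-- minimum degree at least `c n`, where `n` is the number of vertices -/
def MinDeg (c : ℝ) (g : Gr) : Prop :=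
  ∀ v : Fin g.1, c * (g.1 : ℝ) ≤ ((g.2.neighborSet v).ncard : ℝ)

/-- There is a polynomial-time many-one reduction from the unrestricted `H`-factor problem to
`FACTOR(H, c)`: a polynomial-time computable map `f` from graphs to graphs of minimum degree at least
`c n` such that `G` has an `H`-factor iff `f G` has one. -/
def Reduces {V : Type} (H : SimpleGraph V) (c : ℝ) : Prop :=
  ∃ f : Gr → {g : Gr // MinDeg c g},
    PolyTimeFun encGr (fun g : {g : Gr // MinDeg c g} => encGr g.1) f ∧
    ∀ g : Gr, HasFactor H g.2 ↔ HasFactor H (f g).1.2

/-- the vertex boundary: the vertices outside `X` with a neighbour in `X` -/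
noncomputable def bdry {V : Type} [Fintype V] (H : SimpleGraph V) (X : Finset V) : Finset V :=
  Finset.univ.filter fun v => v ∉ X ∧ ∃ x ∈ X, H.Adj x v

/-- every connected component of the subgraph induced on `X` has at most `t` vertices -/
def SmallComps {V : Type} (H : SimpleGraph V) (t : ℕ) (X : Finset V) : Prop :=
  ∀ Y ⊆ X, (H.induce (Y : Set V)).Connected → Y.card ≤ t

end Pool.Agent.H17.HF
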