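import Pool.Agent.H17.HF.Gadget

set_option autoImplicit false
set_option linter.unusedSectionVars false

/-!
# The gadget has an `H`-factor iff the instance has one
-/

namespace Pool.Agent.H17.HF

open scoped Classical
open Finset

variable {V : Type} [Fintype V]

theorem hasFactor_gadget_of {H : SimpleGraph V} {X₀ : Finset V} {n : ℕ} {G : SimpleGraph (Fin n)}
    {r : ℕ} (h : HasFactor H G) : HasFactor H (gadget H X₀ G r) := by
  obtain ⟨ι, Φ, hΦ⟩ := h
  refine ⟨ι ⊕ Fin r, (Equiv.sumProdDistrib ι (Fin r) V).trans (Equiv.sumCongr Φ (Equiv.refl _)), ?_⟩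
  rintro (i | i) u v huv
  · exact hΦ i u v huv
  · change ((i, u) : Fin r × V) ≠ (i, v) ∧ (u ∉ X₀ ∨ v ∉ X₀ ∨ (i = i ∧ Same H X₀ u v))
    refine ⟨fun e => huv.ne (Prod.ext_iff.1 e).2, ?_⟩
    by_cases hu : u ∈ X₀
    · by_cases hv : v ∈ X₀
      · exact Or.inr (Or.inr ⟨rfl, Same.of_adj hu hv huv⟩)
      · exact Or.inr (Or.inl hv)
    · exact Or.inl hu

/-- the vertex is of type `B`: in a copy of `X₀` -/
def IsB (X₀ : Finset V) {n r : ℕ} (w : Fin n ⊕ (Fin r × V)) : Prop :=
  ∃ x : Fin r × V, w = Sum.inr x ∧ x.2 ∈ X₀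

/-- the vertex is of type `A`: in a copy of the complement of `X₀` -/
def IsA (X₀ : Finset V) {n r : ℕ} (w : Fin n ⊕ (Fin r × V)) : Prop :=
  ∃ x : Fin r × V, w = Sum.inr x ∧ x.2 ∉ X₀

theorem card_isB (X₀ : Finset V) (n r : ℕ) :
    (∑ w : Fin n ⊕ (Fin r × V), if IsB X₀ w then 1 else 0) = r * X₀.card := by
  rw [Fintype.sum_sum_type]
  have h1 : ∀ a : Fin n, (if IsB X₀ (Sum.inl a : Fin n ⊕ (Fin r × V)) then 1 else 0) = 0 := by
    intro a
    rw [if_neg]
    rintro ⟨x, hx, -⟩
    exact absurd hx (by simp)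
  have h2 : ∀ x : Fin r × V, (if IsB X₀ (Sum.inr x : Fin n ⊕ (Fin r × V)) then 1 else 0) =
      if x.2 ∈ X₀ then 1 else 0 := by
    intro x
    have : IsB X₀ (Sum.inr x : Fin n ⊕ (Fin r × V)) ↔ x.2 ∈ X₀ := by
      constructor
      · rintro ⟨y, hy, h⟩
        rw [Sum.inr.inj hy]
        exact h
      · intro h
        exact ⟨x, rfl, h⟩
    simp only [this]
  simp only [h1, h2, Finset.sum_const_zero, zero_add]
  rw [Fintype.sum_prod_type]
  simp only [Finset.sum_ite_mem, Finset.univ_inter, Finset.sum_const, Finset.card_univ,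
    Fintype.card_fin, smul_eq_mul, mul_one]

theorem card_isA (X₀ : Finset V) (n r : ℕ) :
    (∑ w : Fin n ⊕ (Fin r × V), if IsA X₀ w then 1 else 0) = r * (Fintype.card V - X₀.card) := by
  rw [Fintype.sum_sum_type]
  have h1 : ∀ a : Fin n, (if IsA X₀ (Sum.inl a : Fin n ⊕ (Fin r × V)) then 1 else 0) = 0 := by
    intro a
    rw [if_neg]
    rintro ⟨x, hx, -⟩
    exact absurd hx (by simp)
  have h2 : ∀ x : Fin r × V, (if IsA X₀ (Sum.inr x : Fin n ⊕ (Fin r × V)) then 1 else 0) =
      if x.2 ∈ X₀ᶜ then 1 else 0 := by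
    intro x
    have : IsA X₀ (Sum.inr x : Fin n ⊕ (Fin r × V)) ↔ x.2 ∈ X₀ᶜ := by
      rw [Finset.mem_compl]
      constructor
      · rintro ⟨y, hy, h⟩
        rw [Sum.inr.inj hy]
        exact h
      · intro h
        exact ⟨x, rfl, h⟩
    simp only [this]
  simp only [h1, h2, Finset.sum_const_zero, zero_add]
  rw [Fintype.sum_prod_type]
  simp only [Finset.sum_ite_mem, Finset.univ_inter, Finset.sum_const, Finset.card_univ,
    Fintype.card_fin, smul_eq_mul, mul_one, Finset.card_compl]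

theorem adj_isB {H : SimpleGraph V} {X₀ : Finset V} {n : ℕ} {G : SimpleGraph (Fin n)} {r : ℕ}
    {p q : Fin n ⊕ (Fin r × V)} (h : (gadget H X₀ G r).Adj p q) (hp : IsB X₀ p) (hq : ¬ IsB X₀ q) :
    IsA X₀ q := by
  obtain ⟨x, rfl, hx⟩ := hp
  rcases q with a | y
  · exact absurd hx h
  · refine ⟨y, rfl, fun hy => hq ⟨y, rfl, hy⟩⟩

theorem adj_isB_isB {H : SimpleGraph V} {X₀ : Finset V} {n : ℕ} {G : SimpleGraph (Fin n)} {r : ℕ}
    {x y : Fin r × V} (h : (gadget H X₀ G r).Adj (Sum.inr x) (Sum.inr y)) (hx : x.2 ∈ X₀)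
    (hy : y.2 ∈ X₀) : x.1 = y.1 ∧ Same H X₀ x.2 y.2 := by
  rcases h.2 with h | h | h
  · exact absurd hx h
  · exact absurd hy h
  · exact h

/-- the components of the part of a copy of `H` in `B` are small -/
theorem smallComps_copy {H : SimpleGraph V} {X₀ : Finset V} {t n r : ℕ} {G : SimpleGraph (Fin n)}
    (h0 : SmallComps H t X₀) {φ : V → Fin n ⊕ (Fin r × V)} (hinj : Function.Injective φ)
    (hφ : ∀ u v, H.Adj u v → (gadget H X₀ G r).Adj (φ u) (φ v)) {X : Finset V}
    (hX : ∀ v ∈ X, IsB X₀ (φ v)) : SmallComps H t X := by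
  intro Y hY hconn
  obtain ⟨y₀⟩ := hconn.nonempty
  have hB : ∀ y : ((Y : Set V) : Set V), ∃ x : Fin r × V, φ y = Sum.inr x ∧ x.2 ∈ X₀ :=
    fun y => hX y (hY (Finset.mem_coe.1 y.2))
  choose f hf1 hf2 using hB
  have key : ∀ y z : ((Y : Set V) : Set V), (H.induce (Y : Set V)).Reachable y z →
      (f y).1 = (f z).1 ∧ Same H X₀ (f y).2 (f z).2 := by
    rintro y z ⟨p⟩
    induction p with
    | @nil y =>
      exact ⟨rfl, Finset.mem_coe.2 (hf2 y), Finset.mem_coe.2 (hf2 y), SimpleGraph.Reachable.refl _⟩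
    | @cons y z w h p ih =>
      have hyz : H.Adj (y : V) z := h
      have h1 := hφ _ _ hyz
      rw [hf1 y, hf1 z] at h1
      have h2 := adj_isB_isB h1 (hf2 y) (hf2 z)
      exact ⟨h2.1.trans ih.1, h2.2.trans ih.2⟩
  have hc := h0 (cls H X₀ (f y₀).2) cls_subset (cls_connected (hf2 y₀))
  refine le_trans ?_ hc
  rw [← Finset.card_attach]
  refine Finset.card_le_card_of_injOn
    (fun y : {y // y ∈ Y} => (f ⟨y.1, Finset.mem_coe.2 y.2⟩).2) ?_ ?_
  · intro y _
    have := key y₀ ⟨y.1, Finset.mem_coe.2 y.2⟩ (hconn.preconnected _ _)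
    exact Finset.mem_coe.2 (mem_cls.2 this.2)
  · intro y _ z _ hyz
    have h1 := key y₀ ⟨y.1, Finset.mem_coe.2 y.2⟩ (hconn.preconnected _ _)
    have h2 := key y₀ ⟨z.1, Finset.mem_coe.2 z.2⟩ (hconn.preconnected _ _)
    have h3 : f ⟨y.1, Finset.mem_coe.2 y.2⟩ = f ⟨z.1, Finset.mem_coe.2 z.2⟩ :=
      Prod.ext (h1.1.symm.trans h2.1) hyz
    apply Subtype.ext
    apply hinj
    have e1 := hf1 ⟨y.1, Finset.mem_coe.2 y.2⟩
    have e2 := hf1 ⟨z.1, Finset.mem_coe.2 z.2⟩
    rw [h3, ← e2] at e1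
    exact e1

/-- the isoperimetric hypothesis on `X₀` -/
def Iso (H : SimpleGraph V) (t : ℕ) (X₀ : Finset V) : Prop :=
  ∀ X : Finset V, X.Nonempty → SmallComps H t X →
    (Fintype.card V - X₀.card) * X.card ≤ X₀.card * (bdry H X).card ∧
    ((Fintype.card V - X₀.card) * X.card = X₀.card * (bdry H X).card → X ∪ bdry H X = univ)

theorem hasFactor_of_gadget {H : SimpleGraph V} {X₀ : Finset V} {t n r : ℕ}
    {G : SimpleGraph (Fin n)} (hne : X₀.Nonempty) (h0 : SmallComps H t X₀) (hiso : Iso H t X₀)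
    (h : HasFactor H (gadget H X₀ G r)) : HasFactor H G := by
  obtain ⟨ι, Φ, hΦ⟩ := h
  obtain ⟨v₀, hv₀⟩ := hne
  have : Finite ι := Finite.of_injective (fun i : ι => Φ (i, v₀))
    (fun i j hij => (Prod.ext_iff.1 (Φ.injective hij)).1)
  obtain ⟨inst⟩ := nonempty_fintype ι
  set XB : ι → Finset V := fun i => univ.filter fun v => IsB X₀ (Φ (i, v)) with hXB
  set XA : ι → Finset V := fun i => univ.filter fun v => IsA X₀ (Φ (i, v)) with hXA
  have hs : 0 < X₀.card := Finset.card_pos.2 ⟨v₀, hv₀⟩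
  have hinj : ∀ i, Function.Injective fun v => Φ (i, v) := fun i u v huv =>
    (Prod.ext_iff.1 (Φ.injective huv)).2
  have sumB : ∑ i, (XB i).card = r * X₀.card := by
    rw [← card_isB X₀ n r, ← Equiv.sum_comp Φ, Fintype.sum_prod_type]
    refine Finset.sum_congr rfl fun i _ => ?_
    rw [hXB, Finset.card_filter]
  have sumA : ∑ i, (XA i).card = r * (Fintype.card V - X₀.card) := by
    rw [← card_isA X₀ n r, ← Equiv.sum_comp Φ, Fintype.sum_prod_type]
    refine Finset.sum_congr rfl fun i _ => ?_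
    rw [hXA, Finset.card_filter]
  have bsub : ∀ i, bdry H (XB i) ⊆ XA i := by
    intro i v hv
    simp only [bdry, hXB, hXA, Finset.mem_filter, Finset.mem_univ, true_and] at hv ⊢
    obtain ⟨hv1, x, hx, hxv⟩ := hv
    exact adj_isB (hΦ i x v hxv) hx hv1
  have small : ∀ i, SmallComps H t (XB i) := fun i =>
    smallComps_copy h0 (hinj i) (hΦ i) (fun v hv => by simpa [hXB] using hv)
  have key : ∀ i, (Fintype.card V - X₀.card) * (XB i).card ≤ X₀.card * (XA i).card := by
    intro i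
    rcases (XB i).eq_empty_or_nonempty with he | he
    · rw [he]; simp
    · exact ((hiso (XB i) he (small i)).1).trans
        (Nat.mul_le_mul_left _ (Finset.card_le_card (bsub i)))
  have tot : ∑ i, (Fintype.card V - X₀.card) * (XB i).card = ∑ i, X₀.card * (XA i).card := by
    rw [← Finset.mul_sum, ← Finset.mul_sum, sumB, sumA]
    ring
  have keq : ∀ i, (Fintype.card V - X₀.card) * (XB i).card = X₀.card * (XA i).card := fun i =>
    (Finset.sum_eq_sum_iff_of_le (fun i _ => key i)).1 tot i (Finset.mem_univ i)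
  have dich : ∀ i, (∀ v, ∃ a, Φ (i, v) = Sum.inl a) ∨ (∀ v, ∃ x, Φ (i, v) = Sum.inr x) := by
    intro i
    rcases (XB i).eq_empty_or_nonempty with he | he
    · left
      have hA : XA i = ∅ := by
        have := keq i
        rw [he, Finset.card_empty, mul_zero] at this
        have h2 : (XA i).card = 0 := by
          rcases Nat.mul_eq_zero.1 this.symm with h | h
          · omega
          · exact h
        exact Finset.card_eq_zero.1 h2
      intro v
      rcases hv : Φ (i, v) with a | x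
      · exact ⟨a, rfl⟩
      · exfalso
        by_cases hx : x.2 ∈ X₀
        · have : v ∈ XB i := by simp only [hXB, Finset.mem_filter, Finset.mem_univ, true_and]; exact ⟨x, hv, hx⟩
          rw [he] at this
          simp at this
        · have : v ∈ XA i := by simp only [hXA, Finset.mem_filter, Finset.mem_univ, true_and]; exact ⟨x, hv, hx⟩
          rw [hA] at this
          simp at this
    · right
      have h1 := hiso (XB i) he (small i)
      have h2 : X₀.card * (bdry H (XB i)).card ≤ X₀.card * (XA i).card :=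
        Nat.mul_le_mul_left _ (Finset.card_le_card (bsub i))
      have h3 : (Fintype.card V - X₀.card) * (XB i).card = X₀.card * (bdry H (XB i)).card :=
        le_antisymm h1.1 (by rw [keq i]; exact h2)
      have h4 := h1.2 h3
      intro v
      have hv : v ∈ XB i ∪ bdry H (XB i) := by rw [h4]; exact Finset.mem_univ v
      rcases Finset.mem_union.1 hv with hv | hv
      · simp only [hXB, Finset.mem_filter, Finset.mem_univ, true_and] at hv
        obtain ⟨x, hx, -⟩ := hv
        exact ⟨x, hx⟩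
      · have hv := bsub i hv
        simp only [hXA, Finset.mem_filter, Finset.mem_univ, true_and] at hv
        obtain ⟨x, hx, -⟩ := hv
        exact ⟨x, hx⟩
  -- the copies inside `G`
  let ι' := {i : ι // ∀ v, ∃ a, Φ (i, v) = Sum.inl a}
  let ψ : ι' × V → Fin n := fun p => (p.1.2 p.2).choose
  have hψ : ∀ p : ι' × V, Φ (p.1.1, p.2) = Sum.inl (ψ p) := fun p => (p.1.2 p.2).choose_spec
  have hbij : Function.Bijective ψ := by
    constructor
    · intro p q hpq
      have h1 := hψ p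
      rw [hpq, ← hψ q] at h1
      have h2 := Φ.injective h1
      exact Prod.ext (Subtype.ext (Prod.ext_iff.1 h2).1) (Prod.ext_iff.1 h2).2
    · intro a
      rcases hp : Φ.symm (Sum.inl a) with ⟨i, v⟩
      have h1 : Φ (i, v) = Sum.inl a := by rw [← hp]; simp
      rcases dich i with h | h
      · refine ⟨(⟨i, h⟩, v), ?_⟩
        have h2 := hψ (⟨i, h⟩, v)
        rw [h1] at h2
        exact (Sum.inl.inj h2).symm
      · obtain ⟨x, hx⟩ := h v
        rw [h1] at hx
        exact absurd hx (by simp)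
  refine ⟨ι', Equiv.ofBijective ψ hbij, ?_⟩
  intro i u v huv
  have h1 := hΦ i.1 u v huv
  rw [hψ (i, u), hψ (i, v)] at h1
  exact h1

theorem hasFactor_gadget_iff {H : SimpleGraph V} {X₀ : Finset V} {t n r : ℕ}
    {G : SimpleGraph (Fin n)} (hne : X₀.Nonempty) (h0 : SmallComps H t X₀) (hiso : Iso H t X₀) :
    HasFactor H G ↔ HasFactor H (gadget H X₀ G r) :=
  ⟨hasFactor_gadget_of, hasFactor_of_gadget hne h0 hiso⟩

end Pool.Agent.H17.HF
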