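import Pool.Agent.H17.HF.Defs

set_option autoImplicit false
set_option linter.unusedSectionVars false

/-!
# The gadget graph
-/

namespace Pool.Agent.H17.HF

open scoped Classical
open Finset

variable {V : Type} [Fintype V]

/-- `v` and `w` lie in the same component of `H[X₀]` -/
def Same (H : SimpleGraph V) (X₀ : Finset V) (v w : V) : Prop :=
  ∃ (hv : v ∈ (X₀ : Set V)) (hw : w ∈ (X₀ : Set V)),
    (H.induce (X₀ : Set V)).Reachable ⟨v, hv⟩ ⟨w, hw⟩

theorem Same.symm {H : SimpleGraph V} {X₀ : Finset V} {v w : V} (h : Same H X₀ v w) :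
    Same H X₀ w v := by
  obtain ⟨a, b, h⟩ := h
  exact ⟨b, a, h.symm⟩

theorem Same.trans {H : SimpleGraph V} {X₀ : Finset V} {u v w : V} (h : Same H X₀ u v)
    (h' : Same H X₀ v w) : Same H X₀ u w := by
  obtain ⟨a, b, h⟩ := h
  obtain ⟨_, c, h'⟩ := h'
  exact ⟨a, c, h.trans h'⟩

theorem Same.of_adj {H : SimpleGraph V} {X₀ : Finset V} {v w : V} (hv : v ∈ X₀) (hw : w ∈ X₀)
    (h : H.Adj v w) : Same H X₀ v w := by
  refine ⟨Finset.mem_coe.2 hv, Finset.mem_coe.2 hw, SimpleGraph.Adj.reachable ?_⟩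
  exact h

/-- the class of `v` -/
noncomputable def cls (H : SimpleGraph V) (X₀ : Finset V) (v : V) : Finset V :=
  univ.filter fun w => Same H X₀ v w

theorem mem_cls {H : SimpleGraph V} {X₀ : Finset V} {v w : V} :
    w ∈ cls H X₀ v ↔ Same H X₀ v w := by
  simp [cls]

theorem cls_connected {H : SimpleGraph V} {X₀ : Finset V} {v : V} (hv : v ∈ X₀) :
    (H.induce (cls H X₀ v : Set V)).Connected := by
  have hv' : v ∈ (X₀ : Set V) := Finset.mem_coe.2 hv
  refine SimpleGraph.induce_connected_of_patches v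
    (Finset.mem_coe.2 (mem_cls.2 ⟨hv', hv', SimpleGraph.Reachable.refl _⟩)) ?_
  intro w hw
  obtain ⟨_, hw', ⟨p⟩⟩ := mem_cls.1 (Finset.mem_coe.1 hw)
  let q := p.map (SimpleGraph.Embedding.induce (X₀ : Set V)).toHom
  have hq := SimpleGraph.Walk.connected_induce_support q
  refine ⟨{x | x ∈ q.support}, ?_, q.start_mem_support, q.end_mem_support, hq.preconnected _ _⟩
  intro x hx
  have hx' : x ∈ q.support := hx
  simp only [q, SimpleGraph.Walk.support_map, List.mem_map] at hx'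
  obtain ⟨y, hy, rfl⟩ := hx'
  refine Finset.mem_coe.2 (mem_cls.2 ⟨hv', y.2, ⟨p.takeUntil y hy⟩⟩)

theorem cls_subset {H : SimpleGraph V} {X₀ : Finset V} {v : V} : cls H X₀ v ⊆ X₀ := by
  intro w hw
  obtain ⟨-, h, -⟩ := mem_cls.1 hw
  exact Finset.mem_coe.1 h

/-- The gadget: `G` together with `r` copies of `V`. In each copy the vertices outside `X₀` are joined
to everything, and the components of `H[X₀]` are made complete. -/
def gadget (H : SimpleGraph V) (X₀ : Finset V) {n : ℕ} (G : SimpleGraph (Fin n)) (r : ℕ) :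
    SimpleGraph (Fin n ⊕ (Fin r × V)) where
  Adj := fun p q => match p, q with
    | Sum.inl a, Sum.inl b => G.Adj a b
    | Sum.inl _, Sum.inr y => y.2 ∉ X₀
    | Sum.inr x, Sum.inl _ => x.2 ∉ X₀
    | Sum.inr x, Sum.inr y => x ≠ y ∧ (x.2 ∉ X₀ ∨ y.2 ∉ X₀ ∨ (x.1 = y.1 ∧ Same H X₀ x.2 y.2))
  symm := ⟨by
    rintro (a | x) (b | y) h
    · exact G.adj_symm h
    · exact h
    · exact h
    · refine ⟨fun e => h.1 e.symm, ?_⟩
      rcases h.2 with h | h | h
      · exact Or.inr (Or.inl h)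
      · exact Or.inl h
      · exact Or.inr (Or.inr ⟨h.1.symm, h.2.symm⟩)⟩
  loopless := ⟨by
    rintro (a | x) h
    · exact G.loopless.irrefl a h
    · exact h.1 rfl⟩

end Pool.Agent.H17.HF
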