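import Pool.Agent.H17.HF.Red

set_option autoImplicit false
set_option linter.unusedSectionVars false

/-!
# The reduction is computable in polynomial time
-/

namespace Pool.Agent.H17.HF

open scoped Classical
open Pool.Agent.H80.Poly Pool.Agent.H72.NP

variable {V : Type} [Fintype V]

/-! ### the computation on matrices -/

/-- the entry `(u, v)` of the output matrix, computed from the input matrix `w.1`, where
`w = (M, u, v)`; `A` and `S` are fixed tables, `h` is the number of vertices of `H` -/
def entry (A : List Bool) (S : List (List Bool)) (h : ℕ) (w : List (List Bool) × ℕ × ℕ) : Bool :=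
  bif decide (w.2.1 < w.1.length) then
    (bif decide (w.2.2 < w.1.length) then (w.1.getD w.2.1 []).getD w.2.2 false
      else A.getD ((w.2.2 - w.1.length) % h) false)
  else
    (bif decide (w.2.2 < w.1.length) then A.getD ((w.2.1 - w.1.length) % h) false
      else !(decide (w.2.1 = w.2.2)) && (A.getD ((w.2.1 - w.1.length) % h) false ||
        (A.getD ((w.2.2 - w.1.length) % h) false ||
          (decide ((w.2.1 - w.1.length) / h = (w.2.2 - w.1.length) / h) &&
            (S.getD ((w.2.1 - w.1.length) % h) []).getD ((w.2.2 - w.1.length) % h) false))))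

theorem entry_poly (A : List Bool) (S : List (List Bool)) (h : ℕ) : PolyTime (entry A S h) := by
  have hw : PolyTime (fun w : List (List Bool) × ℕ × ℕ => w) := PolyTime.id
  have hn : PolyTime (fun w : List (List Bool) × ℕ × ℕ => w.1.length) := hw.fst.length
  have hh : PolyTime (fun _ : List (List Bool) × ℕ × ℕ => h) := PolyTime.const h
  have hf : PolyTime (fun _ : List (List Bool) × ℕ × ℕ => false) := PolyTime.const false
  have hA : PolyTime (fun _ : List (List Bool) × ℕ × ℕ => A) := PolyTime.const A
  have hS : PolyTime (fun _ : List (List Bool) × ℕ × ℕ => S) := PolyTime.const S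
  have hnil : PolyTime (fun _ : List (List Bool) × ℕ × ℕ => ([] : List Bool)) :=
    PolyTime.const []
  have hu : PolyTime (fun w : List (List Bool) × ℕ × ℕ => w.2.1 - w.1.length) :=
    hw.snd.fst.sub hn
  have hv : PolyTime (fun w : List (List Bool) × ℕ × ℕ => w.2.2 - w.1.length) :=
    hw.snd.snd.sub hn
  exact PolyTime.cond (PolyTime.lt hw.snd.fst hn)
    (PolyTime.cond (PolyTime.lt hw.snd.snd hn)
      (PolyTime.list_getD (PolyTime.list_getD hw.fst hw.snd.fst hnil) hw.snd.snd hf)
      (PolyTime.list_getD hA (hv.mod hh) hf))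
    (PolyTime.cond (PolyTime.lt hw.snd.snd hn)
      (PolyTime.list_getD hA (hu.mod hh) hf)
      (PolyTime.and (PolyTime.not (PolyTime.eq hw.snd.fst hw.snd.snd))
        (PolyTime.or (PolyTime.list_getD hA (hu.mod hh) hf)
          (PolyTime.or (PolyTime.list_getD hA (hv.mod hh) hf)
            (PolyTime.and (PolyTime.eq (hu.div hh) (hv.div hh))
              (PolyTime.list_getD (PolyTime.list_getD hS (hu.mod hh) hnil) (hv.mod hh) hf))))))

/-- the number of vertices of the output -/
def osz (h R n : ℕ) : ℕ := n + (R * (n + 1)) * h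

/-- the output matrix -/
def outMat (A : List Bool) (S : List (List Bool)) (h R : ℕ) (M : List (List Bool)) :
    List (List Bool) :=
  (List.range (osz h R M.length)).map fun u =>
    (List.range (osz h R M.length)).map fun v => entry A S h (M, u, v)

theorem outMat_poly (A : List Bool) (S : List (List Bool)) (h R : ℕ) :
    PolyTime (outMat A S h R) := by
  have hM : PolyTime (fun M : List (List Bool) => M) := PolyTime.id
  have hN : PolyTime (fun M : List (List Bool) => osz h R M.length) :=
    hM.length.add (((PolyTime.const R).mul (hM.length.succ)).mul (PolyTime.const h))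
  have bd : ∃ b, PB b ∧ ∀ M : List (List Bool), osz h R M.length ≤ b (size M) := by
    refine ⟨fun n => n + (R * (n + 1)) * h, PB.id.add (((PB.const R).mul
      (PB.id.add (PB.const 1))).mul (PB.const h)), fun M => ?_⟩
    have h1 := length_le_size M
    exact Nat.add_le_add h1 (Nat.mul_le_mul_right _ (Nat.mul_le_mul_left _ (Nat.succ_le_succ h1)))
  have hR : PolyTime (fun M : List (List Bool) => List.range (osz h R M.length)) :=
    PolyTime.range hN bd
  have hR2 : PolyTime (fun w : List (List Bool) × ℕ => List.range (osz h R w.1.length)) :=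
    hR.comp (g := fun M : List (List Bool) => List.range (osz h R M.length)) PolyTime.fst'
  have hw : PolyTime (fun w : (List (List Bool) × ℕ) × ℕ => w) := PolyTime.id
  refine PolyTime.map (l := fun M : List (List Bool) => List.range (osz h R M.length))
    (g := fun w : List (List Bool) × ℕ =>
      (List.range (osz h R w.1.length)).map fun v => entry A S h (w.1, w.2, v)) hR ?_
  refine PolyTime.map (l := fun w : List (List Bool) × ℕ => List.range (osz h R w.1.length))
    (g := fun z : (List (List Bool) × ℕ) × ℕ => entry A S h (z.1.1, z.1.2, z.2)) hR2 ?_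
  exact (entry_poly A S h).comp (hw.fst.fst.pair (hw.fst.snd.pair hw.snd))

/-! ### the tables -/

/-- table of the vertices outside `X₀` -/
noncomputable def tabA (X₀ : Finset V) : List Bool :=
  (List.finRange (Fintype.card V)).map fun j => decide ((Fintype.equivFin V).symm j ∉ X₀)

/-- table of the components of `H[X₀]` -/
noncomputable def tabS (H : SimpleGraph V) (X₀ : Finset V) : List (List Bool) :=
  (List.finRange (Fintype.card V)).map fun j =>
    (List.finRange (Fintype.card V)).map fun k =>
      decide (Same H X₀ ((Fintype.equivFin V).symm j) ((Fintype.equivFin V).symm k))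

theorem getD_finRange_map {n : ℕ} {β : Type} (f : Fin n → β) (d : β) (i : Fin n) :
    ((List.finRange n).map f).getD i.val d = f i := by
  rw [List.getD_eq_getElem?_getD]
  simp

theorem getD_tabA (X₀ : Finset V) (v : V) :
    (tabA X₀).getD (Fintype.equivFin V v).val false = decide (v ∉ X₀) := by
  rw [tabA, getD_finRange_map, Equiv.symm_apply_apply]

theorem getD_tabS (H : SimpleGraph V) (X₀ : Finset V) (v w : V) :
    ((tabS H X₀).getD (Fintype.equivFin V v).val []).getD (Fintype.equivFin V w).val false =
      decide (Same H X₀ v w) := by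
  rw [tabS, getD_finRange_map, getD_finRange_map, Equiv.symm_apply_apply, Equiv.symm_apply_apply]

theorem length_matrix (g : Gr) : (matrix g).length = g.1 := by
  simp [matrix]

theorem getD_matrix (g : Gr) (a b : Fin g.1) :
    ((matrix g).getD a.val []).getD b.val false = decide (g.2.Adj a b) := by
  rw [matrix, getD_finRange_map, getD_finRange_map]

theorem entry_eq (H : SimpleGraph V) (X₀ : Finset V) (g : Gr) (r : ℕ)
    (p q : Fin g.1 ⊕ (Fin r × V)) :
    entry (tabA X₀) (tabS H X₀) (Fintype.card V)
      (matrix g, (num V g.1 r p).val, (num V g.1 r q).val) =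
      decide ((gadget H X₀ g.2 r).Adj p q) := by
  have hlt : ∀ v : V, (Fintype.equivFin V v).val < Fintype.card V := fun v =>
    (Fintype.equivFin V v).2
  have hmod : ∀ x : Fin r × V, ((Fintype.equivFin V x.2).val + Fintype.card V * x.1.val) %
      Fintype.card V = (Fintype.equivFin V x.2).val := by
    intro x
    rw [Nat.add_mul_mod_self_left, Nat.mod_eq_of_lt (hlt x.2)]
  have hdiv : ∀ x : Fin r × V, ((Fintype.equivFin V x.2).val + Fintype.card V * x.1.val) /
      Fintype.card V = x.1.val := by
    intro x
    have h0 : 0 < Fintype.card V := lt_of_le_of_lt (Nat.zero_le _) (hlt x.2)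
    rw [Nat.add_mul_div_left _ _ h0, Nat.div_eq_of_lt (hlt x.2), zero_add]
  unfold entry
  rcases p with a | x <;> rcases q with b | y
  · simp only [num_inl, length_matrix, a.2, b.2, decide_true, cond_true]
    exact getD_matrix g a b
  · have h1 : ¬ (g.1 + ((Fintype.equivFin V y.2).val + Fintype.card V * y.1.val) < g.1) := by omega
    simp only [num_inl, num_inr, length_matrix, a.2, h1, decide_true, decide_false, cond_true,
      cond_false, Nat.add_sub_cancel_left, hmod, getD_tabA]
    exact decide_eq_decide.2 Iff.rfl
  · have h1 : ¬ (g.1 + ((Fintype.equivFin V x.2).val + Fintype.card V * x.1.val) < g.1) := by omega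
    simp only [num_inl, num_inr, length_matrix, b.2, h1, decide_true, decide_false, cond_true,
      cond_false, Nat.add_sub_cancel_left, hmod, getD_tabA]
    exact decide_eq_decide.2 Iff.rfl
  · have h1 : ¬ (g.1 + ((Fintype.equivFin V x.2).val + Fintype.card V * x.1.val) < g.1) := by omega
    have h2 : ¬ (g.1 + ((Fintype.equivFin V y.2).val + Fintype.card V * y.1.val) < g.1) := by omega
    simp only [num_inr, length_matrix, h1, h2, decide_false, cond_false, Nat.add_sub_cancel_left,
      hmod, hdiv, getD_tabA, getD_tabS]
    have h3 : (g.1 + ((Fintype.equivFin V x.2).val + Fintype.card V * x.1.val) =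
        g.1 + ((Fintype.equivFin V y.2).val + Fintype.card V * y.1.val)) ↔ x = y := by
      constructor
      · intro h
        have h' : (num V g.1 r (Sum.inr x)).val = (num V g.1 r (Sum.inr y)).val := by
          rw [num_inr, num_inr]; exact h
        exact Sum.inr.inj ((num V g.1 r).injective (Fin.ext h'))
      · rintro rfl; rfl
    have h4 : (x.1.val = y.1.val) ↔ x.1 = y.1 := Fin.ext_iff.symm
    rw [Bool.eq_iff_iff]
    simp only [h3, h4, Bool.and_eq_true, Bool.or_eq_true, Bool.not_eq_true', decide_eq_true_eq,
      decide_eq_false_iff_not]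
    rfl

theorem entry_eq' (H : SimpleGraph V) (X₀ : Finset V) (g : Gr) (r : ℕ)
    (u v : Fin (g.1 + r * Fintype.card V)) :
    entry (tabA X₀) (tabS H X₀) (Fintype.card V) (matrix g, u.val, v.val) =
      decide (((gadget H X₀ g.2 r).comap (num V g.1 r).symm).Adj u v) := by
  have h := entry_eq H X₀ g r ((num V g.1 r).symm u) ((num V g.1 r).symm v)
  rw [Equiv.apply_symm_apply, Equiv.apply_symm_apply] at h
  rw [h]
  exact decide_eq_decide.2 Iff.rfl

theorem matrix_out (H : SimpleGraph V) (X₀ : Finset V) (R : ℕ) (g : Gr) :
    matrix (out H X₀ R g) =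
      outMat (tabA X₀) (tabS H X₀) (Fintype.card V) R (matrix g) := by
  have hlen : osz (Fintype.card V) R (matrix g).length = (out H X₀ R g).1 := by
    rw [length_matrix]; rfl
  unfold outMat
  rw [hlen]
  have hr : List.range (out H X₀ R g).1 = (List.finRange (out H X₀ R g).1).map Fin.val := by
    rw [List.map_coe_finRange_eq_range]
  rw [hr, List.map_map]
  unfold matrix
  refine List.map_congr_left fun u _ => ?_
  simp only [Function.comp_apply]
  rw [List.map_map]
  refine List.map_congr_left fun v _ => ?_
  simp only [Function.comp_apply]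
  exact (entry_eq' H X₀ g (R * (g.1 + 1)) u v).symm

/-- **The reduction.** -/
theorem reduces_of_gadget {H : SimpleGraph V} {X₀ : Finset V} (hne : X₀.Nonempty)
    (hfac : ∀ (n : ℕ) (G : SimpleGraph (Fin n)) (r : ℕ),
      HasFactor H G ↔ HasFactor H (gadget H X₀ G r)) {c : ℝ}
    (hc : c < 1 - (X₀.card : ℝ) / Fintype.card V) : Reduces H c := by
  have hV : (0 : ℝ) < Fintype.card V := by
    have h1 : 0 < X₀.card := Finset.card_pos.2 hne
    have h2 := Finset.card_le_univ X₀
    exact_mod_cast lt_of_lt_of_le h1 h2
  set δ : ℝ := ((Fintype.card V : ℝ) - X₀.card) - c * Fintype.card V with hδ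
  have hδ0 : 0 < δ := by
    have h1 : c * Fintype.card V < (1 - (X₀.card : ℝ) / Fintype.card V) * Fintype.card V :=
      mul_lt_mul_of_pos_right hc hV
    have h2 : (1 - (X₀.card : ℝ) / Fintype.card V) * Fintype.card V =
        (Fintype.card V : ℝ) - X₀.card := by
      field_simp
    rw [h2] at h1
    linarith
  obtain ⟨R, hR⟩ := exists_nat_gt (|c| / δ)
  have hR0 : 0 < R := by
    have : (0 : ℝ) < R := lt_of_le_of_lt (div_nonneg (abs_nonneg c) hδ0.le) hR
    exact_mod_cast this
  have hR1 : |c| ≤ R * δ := by
    rw [div_lt_iff₀ hδ0] at hR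
    exact hR.le
  refine ⟨fun g => ⟨out H X₀ R g, minDeg_out hne hR0 hR1 g⟩, ?_, fun g => ?_⟩
  swap
  · rw [hfac g.1 g.2 (R * (g.1 + 1))]
    exact (hasFactor_comap (num V g.1 (R * (g.1 + 1)))).symm
  obtain ⟨p, b, ⟨t, ht⟩, hp⟩ := outMat_poly (tabA X₀) (tabS H X₀) (Fintype.card V) R
  refine Prog.tm2 _ _ _ p t fun g => ?_
  obtain ⟨n, hn, h⟩ := hp (matrix g)
  refine ⟨n, hn.trans (ht _), ?_⟩
  have h1 := matrix_out H X₀ R g
  unfold encGr
  simp only
  rw [h1]
  exact h

theorem reduces_of_iso {H : SimpleGraph V} {X₀ : Finset V} {t : ℕ} (hne : X₀.Nonempty)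
    (h0 : SmallComps H t X₀) (hiso : Iso H t X₀) {c : ℝ}
    (hc : c < 1 - (X₀.card : ℝ) / Fintype.card V) : Reduces H c :=
  reduces_of_gadget hne (fun _ _ _ => hasFactor_gadget_iff hne h0 hiso) hc

end Pool.Agent.H17.HF
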