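import Pool.Agent.H17.HF.Equiv

set_option autoImplicit false
set_option linter.unusedSectionVars false

/-!
# The reduction
-/

namespace Pool.Agent.H17.HF

open scoped Classical
open Finset

variable {V : Type} [Fintype V]

/-! ### relabelling -/

theorem hasFactor_comap {W W' : Type} {H : SimpleGraph V} {G : SimpleGraph W} (E : W ≃ W') :
    HasFactor H (G.comap E.symm) ↔ HasFactor H G := by
  constructor
  · rintro ⟨ι, Φ, hΦ⟩
    exact ⟨ι, Φ.trans E.symm, fun i u v huv => hΦ i u v huv⟩
  · rintro ⟨ι, Φ, hΦ⟩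
    refine ⟨ι, Φ.trans E, fun i u v huv => ?_⟩
    change G.Adj (E.symm (E (Φ (i, u)))) (E.symm (E (Φ (i, v))))
    rw [Equiv.symm_apply_apply, Equiv.symm_apply_apply]
    exact hΦ i u v huv

/-- the numbering of the vertices of the gadget -/
noncomputable def num (V : Type) [Fintype V] (n r : ℕ) :
    Fin n ⊕ (Fin r × V) ≃ Fin (n + r * Fintype.card V) :=
  (Equiv.sumCongr (Equiv.refl _)
    ((Equiv.prodCongr (Equiv.refl _) (Fintype.equivFin V)).trans finProdFinEquiv)).trans
    finSumFinEquiv

theorem num_inl (n r : ℕ) (a : Fin n) : ((num V n r (Sum.inl a)).val : ℕ) = a.val := by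
  simp [num]

theorem num_inr (n r : ℕ) (x : Fin r × V) : ((num V n r (Sum.inr x)).val : ℕ) =
    n + ((Fintype.equivFin V x.2).val + Fintype.card V * x.1.val) := by
  simp [num]

/-- the output graph -/
noncomputable def out (H : SimpleGraph V) (X₀ : Finset V) (R : ℕ) (g : Gr) : Gr :=
  ⟨g.1 + (R * (g.1 + 1)) * Fintype.card V,
    (gadget H X₀ g.2 (R * (g.1 + 1))).comap (num V g.1 (R * (g.1 + 1))).symm⟩

theorem hasFactor_out {H : SimpleGraph V} {X₀ : Finset V} {t R : ℕ} (hne : X₀.Nonempty)
    (h0 : SmallComps H t X₀) (hiso : Iso H t X₀) (g : Gr) :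
    HasFactor H g.2 ↔ HasFactor H (out H X₀ R g).2 := by
  rw [hasFactor_gadget_iff (r := R * (g.1 + 1)) hne h0 hiso]
  exact (hasFactor_comap (num V g.1 (R * (g.1 + 1)))).symm

/-! ### the minimum degree -/

theorem ncard_isA (X₀ : Finset V) (n r : ℕ) :
    {w : Fin n ⊕ (Fin r × V) | IsA X₀ w}.ncard = r * (Fintype.card V - X₀.card) := by
  rw [← card_isA X₀ n r, Set.ncard_eq_toFinset_card', ← Finset.card_filter]
  congr 1
  ext w
  simp

theorem deg_gadget {H : SimpleGraph V} {X₀ : Finset V} {n r : ℕ} {G : SimpleGraph (Fin n)}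
    (hr : 0 < r) (hne : X₀.Nonempty) (w : Fin n ⊕ (Fin r × V)) :
    r * (Fintype.card V - X₀.card) ≤ ((gadget H X₀ G r).neighborSet w).ncard := by
  by_cases hw : IsA X₀ w
  · have hsub : ({w}ᶜ : Set (Fin n ⊕ (Fin r × V))) ⊆ (gadget H X₀ G r).neighborSet w := by
      intro z hz
      have hz' : z ≠ w := hz
      obtain ⟨x, rfl, hx⟩ := hw
      rcases z with a | y
      · exact hx
      · exact ⟨fun e => hz' (by rw [e]), Or.inl hx⟩
    refine le_trans ?_ (Set.ncard_le_ncard hsub (Set.toFinite _))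
    rw [Set.ncard_compl, Set.ncard_singleton, Nat.card_eq_fintype_card, Fintype.card_sum,
      Fintype.card_prod, Fintype.card_fin, Fintype.card_fin]
    have hs : 0 < X₀.card := Finset.card_pos.2 hne
    have h1 : r * (Fintype.card V - X₀.card) + 1 ≤ r * Fintype.card V := by
      have h2 : Fintype.card V - X₀.card + 1 ≤ Fintype.card V := by
        have := Finset.card_le_univ X₀
        omega
      calc r * (Fintype.card V - X₀.card) + 1 ≤ r * (Fintype.card V - X₀.card) + r := by omega
        _ = r * (Fintype.card V - X₀.card + 1) := by ring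
        _ ≤ r * Fintype.card V := Nat.mul_le_mul_left _ h2
    omega
  · rw [← ncard_isA X₀ n r]
    refine Set.ncard_le_ncard ?_ (Set.toFinite _)
    rintro z ⟨y, rfl, hy⟩
    rcases w with a | x
    · exact hy
    · refine ⟨fun e => ?_, Or.inr (Or.inl hy)⟩
      rw [e] at hw
      exact hw ⟨y, rfl, hy⟩

theorem minDeg_out {H : SimpleGraph V} {X₀ : Finset V} (hne : X₀.Nonempty) {c : ℝ} {R : ℕ}
    (hR : 0 < R) (hc : |c| ≤ R * (((Fintype.card V : ℝ) - X₀.card) - c * Fintype.card V))
    (g : Gr) : MinDeg c (out H X₀ R g) := by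
  set r := R * (g.1 + 1) with hr
  have main : ∀ v : Fin (g.1 + r * Fintype.card V), r * (Fintype.card V - X₀.card) ≤
      (((gadget H X₀ g.2 r).comap (num V g.1 r).symm).neighborSet v).ncard := by
    intro v
    have h1 : (((gadget H X₀ g.2 r).comap (num V g.1 r).symm).neighborSet v) =
        (num V g.1 r) '' ((gadget H X₀ g.2 r).neighborSet ((num V g.1 r).symm v)) := by
      ext w
      constructor
      · intro hw
        exact ⟨(num V g.1 r).symm w, hw, (num V g.1 r).apply_symm_apply w⟩
      · rintro ⟨z, hz, rfl⟩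
        change (gadget H X₀ g.2 r).Adj ((num V g.1 r).symm v) ((num V g.1 r).symm (num V g.1 r z))
        rw [(num V g.1 r).symm_apply_apply]
        exact hz
    rw [h1, Set.ncard_image_of_injective _ (num V g.1 r).injective]
    exact deg_gadget (H := H) (G := g.2) (r := r) (by positivity) hne _
  intro v
  have h2 : r * (Fintype.card V - X₀.card) ≤ ((out H X₀ R g).2.neighborSet v).ncard := main v
  have h3 : ((r * (Fintype.card V - X₀.card) : ℕ) : ℝ) ≤
      (((out H X₀ R g).2.neighborSet v).ncard : ℝ) := by exact_mod_cast h2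
  refine le_trans ?_ h3
  have h4 : X₀.card ≤ Fintype.card V := Finset.card_le_univ X₀
  rw [Nat.cast_mul, Nat.cast_sub h4]
  have h5 : ((out H X₀ R g).1 : ℝ) = g.1 + (r : ℝ) * Fintype.card V := by
    simp [out, hr]
  rw [h5]
  have h6 : (r : ℝ) = R * (g.1 + 1) := by rw [hr]; push_cast; ring
  have h7 : c * (g.1 : ℝ) ≤ |c| * (g.1 + 1) := by
    have := le_abs_self c
    have h0 := abs_nonneg c
    have h00 : (0 : ℝ) ≤ g.1 := Nat.cast_nonneg _
    nlinarith
  have h8 : |c| * (g.1 + 1) ≤
      R * (((Fintype.card V : ℝ) - X₀.card) - c * Fintype.card V) * (g.1 + 1) :=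
    mul_le_mul_of_nonneg_right hc (by positivity)
  rw [h6]
  nlinarith

end Pool.Agent.H17.HF
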