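import Pool.Agent.H17.HF.Cor

set_option autoImplicit false
set_option linter.unusedSectionVars false

/-!
# Tough sets
-/

namespace Pool.Agent.H17.HF

open scoped Classical
open Finset

variable {V : Type} [Fintype V]

/-- the number of connected components of `H - S` -/
noncomputable def numComps (H : SimpleGraph V) (S : Finset V) : ℕ :=
  Nat.card (H.induce ((S : Set V)ᶜ)).ConnectedComponent

/-- if every copy lies inside `G` or avoids `G`, then `G` has an `H`-factor -/
theorem factor_of_dich {H : SimpleGraph V} {X₀ : Finset V} {n r : ℕ} {G : SimpleGraph (Fin n)}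
    {ι : Type} (Φ : ι × V ≃ Fin n ⊕ (Fin r × V))
    (hΦ : ∀ i u v, H.Adj u v → (gadget H X₀ G r).Adj (Φ (i, u)) (Φ (i, v)))
    (dich : ∀ i, (∀ v, ∃ a, Φ (i, v) = Sum.inl a) ∨ (∀ v, ∃ x, Φ (i, v) = Sum.inr x)) :
    HasFactor H G := by
  let ι' := {i : ι // ∀ v, ∃ a, Φ (i, v) = Sum.inl a}
  let ψ : ι' × V → Fin n := fun p => (p.1.2 p.2).choose
  have hψ : ∀ p : ι' × V, Φ (p.1.1, p.2) = Sum.inl (ψ p) := fun p => (p.1.2 p.2).choose_spec
  have hbij : Function.Bijective ψ := by
    constructor
    · intro p q hpq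
      have h1 := hψ p
      rw [hpq, ← hψ q] at h1
      have h2 := Φ.injective h1
      exact Prod.ext (Subtype.ext (Prod.ext_iff.1 h2).1) (Prod.ext_iff.1 h2).2
    · intro a
      rcases hp : Φ.symm (Sum.inl a) with ⟨i, v⟩
      have h1 : Φ (i, v) = Sum.inl a := by rw [← hp]; simp
      rcases dich i with h | h
      · refine ⟨(⟨i, h⟩, v), ?_⟩
        have h2 := hψ (⟨i, h⟩, v)
        rw [h1] at h2
        exact (Sum.inl.inj h2).symm
      · obtain ⟨x, hx⟩ := h v
        rw [h1] at hx
        exact absurd hx (by simp)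
  refine ⟨ι', Equiv.ofBijective ψ hbij, ?_⟩
  intro i u v huv
  have h1 := hΦ i.1 u v huv
  rw [hψ (i, u), hψ (i, v)] at h1
  exact h1

/-- the number of components is at least the number of values of a function that is constant along
edges -/
theorem card_image_le_numComps {H : SimpleGraph V} {S : Finset V} {L : Type} [DecidableEq L]
    (f : V → L)
    (hf : ∀ u v, u ∉ S → v ∉ S → H.Adj u v → f u = f v) :
    ((Sᶜ).image f).card ≤ numComps H S := by
  unfold numComps
  let g : (H.induce ((S : Set V)ᶜ)).ConnectedComponent → L :=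
    SimpleGraph.ConnectedComponent.lift (fun v => f v) (by
      intro v w p _
      induction p with
      | nil => rfl
      | @cons a b c h p ih =>
        refine (hf a b ?_ ?_ h).trans (ih (by
          rename_i hp
          exact (SimpleGraph.Walk.cons_isPath_iff _ _).1 hp |>.1))
        · exact fun h => a.2 (Finset.mem_coe.2 h)
        · exact fun h => b.2 (Finset.mem_coe.2 h))
  have hsub : (Sᶜ).image f ⊆ univ.image g := by
    intro l hl
    obtain ⟨v, hv, rfl⟩ := Finset.mem_image.1 hl
    have hv' : v ∈ ((S : Set V)ᶜ) := fun h => (Finset.mem_compl.1 hv) (Finset.mem_coe.1 h)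
    exact Finset.mem_image.2 ⟨(H.induce ((S : Set V)ᶜ)).connectedComponentMk ⟨v, hv'⟩,
      Finset.mem_univ _, rfl⟩
  calc ((Sᶜ).image f).card ≤ (univ.image g).card := Finset.card_le_card hsub
    _ ≤ (univ : Finset (H.induce ((S : Set V)ᶜ)).ConnectedComponent).card :=
        Finset.card_image_le
    _ = _ := by rw [Finset.card_univ, Nat.card_eq_fintype_card]

/-- the sum of the inverse sizes of the classes is the number of classes -/
theorem sum_inv_cls (H : SimpleGraph V) (S : Finset V) :
    ∑ v ∈ Sᶜ, (1 / ((cls H Sᶜ v).card : ℚ)) = numComps H S := by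
  have hcoe : ((Sᶜ : Finset V) : Set V) = (S : Set V)ᶜ := Finset.coe_compl S
  -- component of a vertex
  let C := (H.induce ((Sᶜ : Finset V) : Set V)).ConnectedComponent
  have hC : numComps H S = Fintype.card C := by
    unfold numComps
    rw [← hcoe, Nat.card_eq_fintype_card]
  rw [hC]
  have h1 : ∑ v ∈ Sᶜ, (1 / ((cls H Sᶜ v).card : ℚ)) =
      ∑ v : ((Sᶜ : Finset V) : Set V), (1 / ((cls H Sᶜ v.1).card : ℚ)) := by
    exact (Finset.sum_coe_sort (Sᶜ) (fun v => 1 / ((cls H Sᶜ v).card : ℚ))).symm
  rw [h1]
  rw [← Finset.sum_fiberwise_of_maps_to (s := univ) (t := (univ : Finset C))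
    (g := fun v => (H.induce ((Sᶜ : Finset V) : Set V)).connectedComponentMk v)
    (fun _ _ => Finset.mem_univ _)]
  have h2 : ∀ c ∈ (univ : Finset C), ∑ v ∈ univ.filter
      (fun v => (H.induce ((Sᶜ : Finset V) : Set V)).connectedComponentMk v = c),
      (1 / ((cls H Sᶜ v.1).card : ℚ)) = 1 := by
    intro c _
    have h3 : ∀ v ∈ univ.filter
        (fun v => (H.induce ((Sᶜ : Finset V) : Set V)).connectedComponentMk v = c),
        (cls H Sᶜ v.1).card = (univ.filter
          (fun v => (H.induce ((Sᶜ : Finset V) : Set V)).connectedComponentMk v = c)).card := by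
      intro v hv
      have hv' := (Finset.mem_filter.1 hv).2
      rw [← Finset.card_map (Function.Embedding.subtype _)]
      congr 1
      ext w
      simp only [mem_cls, Finset.mem_map, Finset.mem_filter, Finset.mem_univ, true_and,
        Function.Embedding.subtype_apply]
      constructor
      · rintro ⟨ha, hb, hr⟩
        exact ⟨⟨w, hb⟩, by rw [← hv']; exact (SimpleGraph.ConnectedComponent.sound hr).symm, rfl⟩
      · rintro ⟨z, hz, rfl⟩
        refine ⟨v.2, z.2, SimpleGraph.ConnectedComponent.exact ?_⟩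
        change (H.induce ((Sᶜ : Finset V) : Set V)).connectedComponentMk v =
          (H.induce ((Sᶜ : Finset V) : Set V)).connectedComponentMk z
        rw [hv', hz]
    rw [Finset.sum_congr rfl (fun v hv => by rw [h3 v hv]), Finset.sum_const, nsmul_eq_mul]
    have h4 : 0 < (univ.filter
          (fun v => (H.induce ((Sᶜ : Finset V) : Set V)).connectedComponentMk v = c)).card := by
      rw [Finset.card_pos]
      obtain ⟨v, hv⟩ := c.exists_rep
      exact ⟨v, Finset.mem_filter.2 ⟨Finset.mem_univ _, hv⟩⟩
    field_simp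
  rw [Finset.sum_congr rfl h2, Finset.sum_const, Finset.card_univ, nsmul_eq_mul, mul_one]

end Pool.Agent.H17.HF
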