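import Pool.Agent.H17.HF.Tough

set_option autoImplicit false
set_option linter.unusedSectionVars false

/-!
# Tough sets: the gadget
-/

namespace Pool.Agent.H17.HF

open scoped Classical
open Finset

variable {V : Type} [Fintype V]

/-- the weight of a vertex of the gadget: the inverse of the size of its class in `B` -/
noncomputable def wt (H : SimpleGraph V) (X₀ : Finset V) {n r : ℕ} :
    Fin n ⊕ (Fin r × V) → ℚ
  | Sum.inl _ => 0
  | Sum.inr x => if x.2 ∈ X₀ then 1 / ((cls H X₀ x.2).card : ℚ) else 0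

/-- the label of a vertex of the gadget: its class in `B` -/
noncomputable def lab (H : SimpleGraph V) (X₀ : Finset V) {n r : ℕ} :
    Fin n ⊕ (Fin r × V) → Option (Fin r × Finset V)
  | Sum.inl _ => none
  | Sum.inr x => if x.2 ∈ X₀ then some (x.1, cls H X₀ x.2) else none

theorem sum_wt (H : SimpleGraph V) (S : Finset V) (n r : ℕ) :
    ∑ w : Fin n ⊕ (Fin r × V), wt H Sᶜ w = r * numComps H S := by
  rw [Fintype.sum_sum_type]
  simp only [wt, Finset.sum_const_zero, zero_add]
  rw [Fintype.sum_prod_type]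
  have h : ∀ x : Fin r, ∑ y : V, (if y ∈ Sᶜ then 1 / ((cls H Sᶜ y).card : ℚ) else 0) =
      numComps H S := by
    intro x
    rw [Finset.sum_ite_mem, Finset.univ_inter]
    exact sum_inv_cls H S
  rw [Finset.sum_congr rfl (fun x _ => h x), Finset.sum_const, Finset.card_univ, Fintype.card_fin,
    nsmul_eq_mul]

theorem cls_eq_of_same {H : SimpleGraph V} {X₀ : Finset V} {v w : V} (h : Same H X₀ v w) :
    cls H X₀ v = cls H X₀ w := by
  ext z
  rw [mem_cls, mem_cls]
  exact ⟨fun hz => h.symm.trans hz, fun hz => h.trans hz⟩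

theorem self_mem_cls {H : SimpleGraph V} {X₀ : Finset V} {v : V} (h : v ∈ X₀) :
    v ∈ cls H X₀ v :=
  mem_cls.2 ⟨Finset.mem_coe.2 h, Finset.mem_coe.2 h, SimpleGraph.Reachable.refl _⟩

/-- the weight of a copy is at most the number of classes it meets -/
theorem weight_le {H : SimpleGraph V} {X₀ : Finset V} {n r : ℕ} {φ : V → Fin n ⊕ (Fin r × V)}
    (hinj : Function.Injective φ) :
    ∑ v, wt H X₀ (φ v) ≤
      (((univ.filter fun v => IsB X₀ (φ v)).image fun v => lab H X₀ (φ v)).card : ℚ) := by
  set X := univ.filter fun v => IsB X₀ (φ v) with hX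
  have h1 : ∑ v, wt H X₀ (φ v) = ∑ v ∈ X, wt H X₀ (φ v) := by
    symm
    apply Finset.sum_subset (Finset.subset_univ _)
    intro v _ hv
    rcases h : φ v with a | x
    · rfl
    · have : x.2 ∉ X₀ := fun hx => hv (Finset.mem_filter.2 ⟨Finset.mem_univ _, x, h, hx⟩)
      simp only [wt, if_neg this]
  rw [h1, ← Finset.sum_fiberwise_of_maps_to (s := X) (t := X.image fun v => lab H X₀ (φ v))
    (g := fun v => lab H X₀ (φ v)) (fun v hv => Finset.mem_image_of_mem _ hv)]
  have h2 : ∀ l ∈ X.image fun v => lab H X₀ (φ v),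
      ∑ v ∈ X.filter (fun v => lab H X₀ (φ v) = l), wt H X₀ (φ v) ≤ 1 := by
    intro l hl
    obtain ⟨v₀, hv₀, rfl⟩ := Finset.mem_image.1 hl
    obtain ⟨x₀, hx₀, hx₀'⟩ := (Finset.mem_filter.1 hv₀).2
    have hl0 : lab H X₀ (φ v₀) = some (x₀.1, cls H X₀ x₀.2) := by
      rw [hx₀]; simp only [lab, if_pos hx₀']
    have h3 : ∀ v ∈ X.filter (fun v => lab H X₀ (φ v) = lab H X₀ (φ v₀)),
        ∃ x : Fin r × V, φ v = Sum.inr x ∧ x.2 ∈ cls H X₀ x₀.2 ∧ x.1 = x₀.1 ∧
          wt H X₀ (φ v) = 1 / ((cls H X₀ x₀.2).card : ℚ) := by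
      intro v hv
      obtain ⟨hv1, hv2⟩ := Finset.mem_filter.1 hv
      obtain ⟨x, hx, hx'⟩ := (Finset.mem_filter.1 hv1).2
      rw [hl0, hx] at hv2
      simp only [lab, if_pos hx', Option.some.injEq, Prod.mk.injEq] at hv2
      refine ⟨x, hx, ?_, hv2.1, ?_⟩
      · rw [← hv2.2]; exact self_mem_cls hx'
      · rw [hx]; simp only [wt, if_pos hx', hv2.2]
    have h4 : (X.filter (fun v => lab H X₀ (φ v) = lab H X₀ (φ v₀))).card ≤
        (cls H X₀ x₀.2).card := by
      have : Nonempty (Fin r × V) := ⟨x₀⟩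
      choose! g hg using h3
      refine Finset.card_le_card_of_injOn (fun v => (g v).2) ?_ ?_
      · intro v hv
        exact Finset.mem_coe.2 (hg v (Finset.mem_coe.1 hv)).2.1
      · intro v hv w hw hvw
        have e1 := hg v (Finset.mem_coe.1 hv)
        have e2 := hg w (Finset.mem_coe.1 hw)
        apply hinj
        rw [e1.1, e2.1]
        congr 1
        exact Prod.ext (e1.2.2.1.trans e2.2.2.1.symm) hvw
    have h5 : 0 < ((cls H X₀ x₀.2).card : ℚ) := by
      have : 0 < (cls H X₀ x₀.2).card := Finset.card_pos.2 ⟨_, self_mem_cls hx₀'⟩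
      exact_mod_cast this
    calc ∑ v ∈ X.filter (fun v => lab H X₀ (φ v) = lab H X₀ (φ v₀)), wt H X₀ (φ v)
        = ∑ _v ∈ X.filter (fun v => lab H X₀ (φ v) = lab H X₀ (φ v₀)),
            (1 / ((cls H X₀ x₀.2).card : ℚ)) :=
          Finset.sum_congr rfl (fun v hv => by
            obtain ⟨x, -, -, -, h⟩ := h3 v hv
            exact h)
      _ = (X.filter (fun v => lab H X₀ (φ v) = lab H X₀ (φ v₀))).card *
            (1 / ((cls H X₀ x₀.2).card : ℚ)) := by rw [Finset.sum_const, nsmul_eq_mul]
      _ ≤ (cls H X₀ x₀.2).card * (1 / ((cls H X₀ x₀.2).card : ℚ)) := by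
          apply mul_le_mul_of_nonneg_right _ (by positivity)
          exact_mod_cast h4
      _ = 1 := by field_simp
  calc _ ≤ ∑ _l ∈ X.image fun v => lab H X₀ (φ v), (1 : ℚ) := Finset.sum_le_sum h2
    _ = _ := by rw [Finset.sum_const, nsmul_eq_mul, mul_one]

/-- the number of classes met by a copy is at most the number of components left by deleting the
boundary, and it is smaller if something else is left -/
theorem classes_le {H : SimpleGraph V} {X₀ : Finset V} {n r : ℕ} {G : SimpleGraph (Fin n)}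
    {φ : V → Fin n ⊕ (Fin r × V)}
    (hφ : ∀ u v, H.Adj u v → (gadget H X₀ G r).Adj (φ u) (φ v)) {X : Finset V}
    (hX : X = univ.filter fun v => IsB X₀ (φ v)) :
    (X.image fun v => lab H X₀ (φ v)).card ≤ numComps H (bdry H X) ∧
    (X ∪ bdry H X ≠ univ →
      (X.image fun v => lab H X₀ (φ v)).card + 1 ≤ numComps H (bdry H X)) := by
  have hmem : ∀ v, v ∈ X ↔ IsB X₀ (φ v) := fun v => by rw [hX]; simp
  have h1 := card_image_le_numComps (H := H) (S := bdry H X)
    (fun v => if v ∈ X then lab H X₀ (φ v) else none) (by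
      intro u v hu hv huv
      by_cases hu' : u ∈ X <;> by_cases hv' : v ∈ X
      · simp only [if_pos hu', if_pos hv']
        obtain ⟨x, hx, hx'⟩ := (hmem u).1 hu'
        obtain ⟨y, hy, hy'⟩ := (hmem v).1 hv'
        have h2 := hφ u v huv
        rw [hx, hy] at h2 ⊢
        obtain ⟨h3, h4⟩ := adj_isB_isB h2 hx' hy'
        simp only [lab, if_pos hx', if_pos hy', h3, cls_eq_of_same h4]
      · exact absurd (mem_bdry.2 ⟨hv', u, hu', huv⟩) hv
      · exact absurd (mem_bdry.2 ⟨hu', v, hv', huv.symm⟩) hu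
      · simp only [if_neg hu', if_neg hv'])
  have hsub : (X.image fun v => lab H X₀ (φ v)) ⊆
      ((bdry H X)ᶜ).image (fun v => if v ∈ X then lab H X₀ (φ v) else none) := by
    intro l hl
    obtain ⟨v, hv, rfl⟩ := Finset.mem_image.1 hl
    refine Finset.mem_image.2 ⟨v, Finset.mem_compl.2 fun h => (mem_bdry.1 h).1 hv, ?_⟩
    simp only [if_pos hv]
  refine ⟨(Finset.card_le_card hsub).trans h1, fun hne => ?_⟩
  obtain ⟨z, hz⟩ : ∃ z, z ∉ X ∪ bdry H X := by
    by_contra hcon
    push Not at hcon
    exact hne (Finset.eq_univ_iff_forall.2 hcon)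
  rw [Finset.mem_union] at hz
  push Not at hz
  have hnone : (none : Option (Fin r × Finset V)) ∉ X.image fun v => lab H X₀ (φ v) := by
    intro h
    obtain ⟨v, hv, h⟩ := Finset.mem_image.1 h
    obtain ⟨x, hx, hx'⟩ := (hmem v).1 hv
    simp only [hx, lab, if_pos hx'] at h
    exact absurd h (by simp)
  refine le_trans ?_ h1
  rw [← Finset.card_insert_of_notMem hnone]
  refine Finset.card_le_card ?_
  intro l hl
  rcases Finset.mem_insert.1 hl with rfl | hl
  · refine Finset.mem_image.2 ⟨z, Finset.mem_compl.2 hz.2, ?_⟩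
    simp only [if_neg hz.1]
  · exact hsub hl

theorem hasFactor_of_gadget_tough {H : SimpleGraph V} {S : Finset V} {n r : ℕ}
    {G : SimpleGraph (Fin n)} (hS : S.Nonempty) (h2 : 2 ≤ numComps H S)
    (htough : ∀ S' : Finset V, 2 ≤ numComps H S' →
      S.card * numComps H S' ≤ numComps H S * S'.card)
    (h : HasFactor H (gadget H Sᶜ G r)) : HasFactor H G := by
  obtain ⟨ι, Φ, hΦ⟩ := h
  obtain ⟨v₀, hv₀⟩ := hS
  have hs : 0 < S.card := Finset.card_pos.2 ⟨v₀, hv₀⟩
  have : Finite ι := Finite.of_injective (fun i : ι => Φ (i, v₀))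
    (fun i j hij => (Prod.ext_iff.1 (Φ.injective hij)).1)
  obtain ⟨inst⟩ := nonempty_fintype ι
  set XB : ι → Finset V := fun i => univ.filter fun v => IsB Sᶜ (Φ (i, v)) with hXB
  set XA : ι → Finset V := fun i => univ.filter fun v => IsA Sᶜ (Φ (i, v)) with hXA
  have hinj : ∀ i, Function.Injective fun v => Φ (i, v) := fun i u v huv =>
    (Prod.ext_iff.1 (Φ.injective huv)).2
  have hcs : Fintype.card V - (Sᶜ).card = S.card := by
    rw [Finset.card_compl]
    have := Finset.card_le_univ S
    omega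
  have sumA : ∑ i, (XA i).card = r * S.card := by
    have := card_isA Sᶜ n r
    rw [hcs] at this
    rw [← this, ← Equiv.sum_comp Φ, Fintype.sum_prod_type]
    refine Finset.sum_congr rfl fun i _ => ?_
    rw [hXA, Finset.card_filter]
  have sumW : ∑ i, ∑ v, wt H Sᶜ (Φ (i, v)) = r * numComps H S := by
    rw [← sum_wt H S n r, ← Equiv.sum_comp Φ, Fintype.sum_prod_type]
  have bsub : ∀ i, bdry H (XB i) ⊆ XA i := by
    intro i v hv
    simp only [bdry, hXB, hXA, Finset.mem_filter, Finset.mem_univ, true_and] at hv ⊢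
    obtain ⟨hv1, x, hx, hxv⟩ := hv
    exact adj_isB (hΦ i x v hxv) hx hv1
  have hW : ∀ i, ∑ v, wt H Sᶜ (Φ (i, v)) ≤
      (((XB i).image fun v => lab H Sᶜ (Φ (i, v))).card : ℚ) := fun i =>
    weight_le (H := H) (X₀ := Sᶜ) (hinj i)
  have hcl := fun i => classes_le (H := H) (X₀ := Sᶜ) (G := G) (r := r) (φ := fun v => Φ (i, v))
    (hΦ i) (X := XB i) rfl
  -- main inequality for one copy
  have main : ∀ i, (S.card : ℚ) * (∑ v, wt H Sᶜ (Φ (i, v))) ≤ numComps H S * (XA i).card ∧
      ((S.card : ℚ) * (∑ v, wt H Sᶜ (Φ (i, v))) = numComps H S * (XA i).card →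
        (XB i = ∅ ∧ XA i = ∅) ∨ XB i ∪ bdry H (XB i) = univ) := by
    intro i
    have hAle : (numComps H S : ℚ) * (bdry H (XB i)).card ≤ numComps H S * (XA i).card := by
      apply mul_le_mul_of_nonneg_left _ (Nat.cast_nonneg _)
      exact_mod_cast Finset.card_le_card (bsub i)
    have hSW : (S.card : ℚ) * (∑ v, wt H Sᶜ (Φ (i, v))) ≤
        S.card * (((XB i).image fun v => lab H Sᶜ (Φ (i, v))).card : ℚ) :=
      mul_le_mul_of_nonneg_left (hW i) (Nat.cast_nonneg _)
    rcases (XB i).eq_empty_or_nonempty with he | he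
    · have h0 : (((XB i).image fun v => lab H Sᶜ (Φ (i, v))).card : ℚ) = 0 := by
        rw [he]; simp
      rw [h0, mul_zero] at hSW
      refine ⟨hSW.trans (by positivity), fun heq => Or.inl ⟨he, ?_⟩⟩
      rw [heq] at hSW
      have h3 : (XA i).card = 0 := by
        by_contra hcon
        have h4 : (0 : ℚ) < (XA i).card := by
          have : 0 < (XA i).card := Nat.pos_of_ne_zero hcon
          exact_mod_cast this
        have h5 : (0 : ℚ) < numComps H S := by
          have : 0 < numComps H S := by omega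
          exact_mod_cast this
        have := mul_pos h5 h4
        linarith
      exact Finset.card_eq_zero.1 h3
    · rcases Nat.lt_or_ge 1 (numComps H (bdry H (XB i))) with hc | hc
      · have h3 := htough (bdry H (XB i)) hc
        have h3' : (S.card : ℚ) * numComps H (bdry H (XB i)) ≤
            numComps H S * (bdry H (XB i)).card := by exact_mod_cast h3
        have h4 : (S.card : ℚ) * (((XB i).image fun v => lab H Sᶜ (Φ (i, v))).card : ℚ) ≤
            S.card * numComps H (bdry H (XB i)) := by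
          apply mul_le_mul_of_nonneg_left _ (Nat.cast_nonneg _)
          exact_mod_cast (hcl i).1
        refine ⟨by linarith, fun heq => ?_⟩
        by_contra hcon
        push Not at hcon
        have h5 : (((XB i).image fun v => lab H Sᶜ (Φ (i, v))).card : ℚ) + 1 ≤
            numComps H (bdry H (XB i)) := by exact_mod_cast (hcl i).2 hcon.2
        have h6 : (0 : ℚ) < S.card := by exact_mod_cast hs
        nlinarith
      · have hu : XB i ∪ bdry H (XB i) = univ := by
          by_contra hcon
          have h3 := (hcl i).2 hcon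
          have h4 : 0 < ((XB i).image fun v => lab H Sᶜ (Φ (i, v))).card :=
            Finset.card_pos.2 (he.image _)
          omega
        refine ⟨?_, fun _ => Or.inr hu⟩
        have h3 : (((XB i).image fun v => lab H Sᶜ (Φ (i, v))).card : ℚ) ≤ 1 := by
          exact_mod_cast (hcl i).1.trans hc
        -- all of `XB i` is in one class
        have h4 : (XB i).card ≤ (Sᶜ).card := by
          have hB : ∀ v ∈ XB i, ∃ x : Fin r × V, Φ (i, v) = Sum.inr x ∧ x.2 ∈ Sᶜ := fun v hv =>
            (Finset.mem_filter.1 hv).2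
          obtain ⟨u, hu⟩ := he
          obtain ⟨xu, hxu, hxu'⟩ := hB u hu
          have : Nonempty (Fin r × V) := ⟨xu⟩
          choose! g hg using hB
          refine Finset.card_le_card_of_injOn (fun v => (g v).2) ?_ ?_
          · intro v hv
            exact Finset.mem_coe.2 (hg v (Finset.mem_coe.1 hv)).2
          · intro v hv w hw hvw
            have e1 := hg v (Finset.mem_coe.1 hv)
            have e2 := hg w (Finset.mem_coe.1 hw)
            apply hinj i
            change Φ (i, v) = Φ (i, w)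
            rw [e1.1, e2.1]
            congr 1
            refine Prod.ext ?_ hvw
            have h5 : lab H Sᶜ (Φ (i, v)) = lab H Sᶜ (Φ (i, w)) := by
              have h6 : ((XB i).image fun v => lab H Sᶜ (Φ (i, v))).card ≤ 1 := by exact_mod_cast h3
              exact Finset.card_le_one.1 h6 _ (Finset.mem_image_of_mem _ (Finset.mem_coe.1 hv)) _
                (Finset.mem_image_of_mem _ (Finset.mem_coe.1 hw))
            rw [e1.1, e2.1] at h5
            simp only [lab, if_pos e1.2, if_pos e2.2, Option.some.injEq, Prod.mk.injEq] at h5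
            exact h5.1
        have h5 : (XB i).card + (bdry H (XB i)).card = Fintype.card V := by
          rw [card_add_bdry, hu, Finset.card_univ]
        have h6 : S.card ≤ (bdry H (XB i)).card := by
          have := Finset.card_le_univ (Sᶜ)
          omega
        have h7 : (S.card : ℚ) ≤ (bdry H (XB i)).card := by exact_mod_cast h6
        have h8 : (2 : ℚ) ≤ numComps H S := by exact_mod_cast h2
        have h9 : (0 : ℚ) ≤ S.card := Nat.cast_nonneg _
        nlinarith
  have tot : ∑ i, (S.card : ℚ) * (∑ v, wt H Sᶜ (Φ (i, v))) =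
      ∑ i, (numComps H S : ℚ) * (XA i).card := by
    rw [← Finset.mul_sum, ← Finset.mul_sum, sumW, ← Nat.cast_sum, sumA]
    push_cast
    ring
  have keq : ∀ i, (S.card : ℚ) * (∑ v, wt H Sᶜ (Φ (i, v))) = numComps H S * (XA i).card :=
    fun i => (Finset.sum_eq_sum_iff_of_le (fun i _ => (main i).1)).1 tot i (Finset.mem_univ i)
  apply factor_of_dich Φ hΦ
  intro i
  rcases (main i).2 (keq i) with ⟨hB, hA⟩ | hu
  · left
    intro v
    rcases hv : Φ (i, v) with a | x
    · exact ⟨a, rfl⟩
    · exfalso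
      by_cases hx : x.2 ∈ Sᶜ
      · have : v ∈ XB i := Finset.mem_filter.2 ⟨Finset.mem_univ _, x, hv, hx⟩
        rw [hB] at this
        simp at this
      · have : v ∈ XA i := Finset.mem_filter.2 ⟨Finset.mem_univ _, x, hv, hx⟩
        rw [hA] at this
        simp at this
  · right
    intro v
    have hv : v ∈ XB i ∪ bdry H (XB i) := by rw [hu]; exact Finset.mem_univ v
    rcases Finset.mem_union.1 hv with hv | hv
    · obtain ⟨x, hx, -⟩ := (Finset.mem_filter.1 hv).2
      exact ⟨x, hx⟩
    · obtain ⟨x, hx, -⟩ := (Finset.mem_filter.1 (bsub i hv)).2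
      exact ⟨x, hx⟩

/-- **The reduction from a tough set.** -/
theorem reduces_of_tough {H : SimpleGraph V} {S : Finset V} (hS : S.Nonempty)
    (h2 : 2 ≤ numComps H S)
    (htough : ∀ S' : Finset V, 2 ≤ numComps H S' →
      S.card * numComps H S' ≤ numComps H S * S'.card) {c : ℝ}
    (hc : c < (S.card : ℝ) / Fintype.card V) : Reduces H c := by
  have hne : (Sᶜ).Nonempty := by
    rw [Finset.nonempty_iff_ne_empty]
    intro he
    have h1 := sum_inv_cls H S
    rw [he, Finset.sum_empty] at h1
    have h3 : (2 : ℚ) ≤ numComps H S := by exact_mod_cast h2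
    linarith
  refine reduces_of_gadget (X₀ := Sᶜ) hne
    (fun _ _ _ => ⟨hasFactor_gadget_of, hasFactor_of_gadget_tough hS h2 htough⟩) ?_
  have h4 : (0 : ℝ) < Fintype.card V := by
    obtain ⟨v, hv⟩ := hS
    have : 0 < Fintype.card V := Fintype.card_pos_iff.2 ⟨v⟩
    exact_mod_cast this
  have h3 : S.card ≤ Fintype.card V := Finset.card_le_univ S
  rw [Finset.card_compl, Nat.cast_sub h3]
  have h5 : 1 - ((Fintype.card V : ℝ) - S.card) / Fintype.card V =
      (S.card : ℝ) / Fintype.card V := by
    field_simp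
    ring
  rw [h5]
  exact hc

end Pool.Agent.H17.HF
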